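import Pool.Agent.Q282.JK.Mom

/-!
# The local mean
-/

set_option autoImplicit false
set_option linter.unusedSectionVars false

namespace Q282.JK

open Polynomial Finset
open Pool.Agent.H341R2.Sharp

/-- the local mean from the moments -/
lemma mean_abs {Ω : Type} [Fintype Ω] (a B κ C₁ C₂ C₃ : ℝ) (ha : 0 ≤ a) (hB : 0 ≤ B)
    (q : ℝ) (hq : 1 ≤ q) (Q : ℝ) (hQ : Q = Fintype.card Ω) (t1 t2 G : Ω → ℝ) (bad : Ω → Prop) [DecidablePred bad]
    (h1 : ∀ u, |t1 u| ≤ a * Real.sqrt q) (h2 : ∀ u, |t2 u| ≤ a * q)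
    (m1 : |∑ u, t1 u - κ * Q| * q ≤ C₁ * Q) (m2 : |∑ u, t2 u - q * Q| ≤ C₂ * Q)
    (hbad : (((univ : Finset Ω).filter bad).card : ℝ) * q ≤ C₃ * Q)
    (hG0 : ∀ u, bad u → G u = 0) (hG : ∀ u, ¬ bad u → |G u - (t1 u / q + t2 u / (2 * q ^ 2))| ≤ B / Real.sqrt q ^ 3)
    (hΩ : 0 < Q) (hC₁ : 0 ≤ C₁) (hC₂ : 0 ≤ C₂) (hC₃ : 0 ≤ C₃) :
    |(∑ u, G u) / Q - (κ + 1 / 2) / q| ≤ (B + 2 * a * C₃ + C₁ + C₂) / q ^ (3 / 2 : ℝ) := by
  obtain ⟨s, hs⟩ : ∃ s : ℝ, s = Real.sqrt q := ⟨_, rfl⟩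
  rw [← hs] at h1 hG
  have hs1 : 1 ≤ s := by
    rw [hs, Real.le_sqrt (by norm_num) (by linarith)]
    linarith
  have hs0 : 0 < s := by linarith
  have hsq : s ^ 2 = q := by
    rw [hs]
    exact Real.sq_sqrt (by linarith)
  have hq0 : 0 < q := by linarith
  have hs3 : q ^ (3 / 2 : ℝ) = s ^ 3 := by
    rw [hs, Real.sqrt_eq_rpow, ← Real.rpow_natCast (q ^ (1 / 2 : ℝ)) 3, ← Real.rpow_mul hq0.le]
    norm_num
  rw [hs3]
  obtain ⟨w, hw⟩ : ∃ w : Ω → ℝ, w = fun u => t1 u / q + t2 u / (2 * q ^ 2) := ⟨_, rfl⟩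
  have hwb : ∀ u, |w u| ≤ 2 * a / s := by
    intro u
    rw [hw]
    refine (abs_add_le _ _).trans ?_
    have h3 : |t1 u / q| ≤ a / s := by
      rw [abs_div, abs_of_pos hq0, div_le_div_iff₀ hq0 hs0]
      calc |t1 u| * s ≤ a * s * s := mul_le_mul_of_nonneg_right (h1 u) hs0.le
        _ = a * q := by rw [← hsq]; ring
    have h4 : |t2 u / (2 * q ^ 2)| ≤ a / s := by
      rw [abs_div, abs_of_pos (by positivity : 0 < 2 * q ^ 2), div_le_div_iff₀ (by positivity) hs0]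
      have hsq' : s ≤ q := by nlinarith
      calc |t2 u| * s ≤ a * q * q := mul_le_mul (h2 u) hsq' hs0.le (by positivity)
        _ ≤ a * (2 * q ^ 2) := by nlinarith [mul_nonneg ha (sq_nonneg q)]
    have : 2 * a / s = a / s + a / s := by ring
    rw [this]
    exact add_le_add h3 h4
  have hGw : |∑ u, G u - ∑ u, w u| ≤ (B + 2 * a * C₃) / s ^ 3 * Q := by
    rw [← sum_sub_distrib]
    refine (abs_sum_le_sum_abs _ _).trans ?_
    have h3 : ∀ u, |G u - w u| ≤ B / s ^ 3 + if bad u then 2 * a / s else 0 := by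
      intro u
      by_cases hb : bad u
      · rw [hG0 u hb, zero_sub, abs_neg, if_pos hb]
        have := hwb u
        have h4 : 0 ≤ B / s ^ 3 := by positivity
        linarith
      · rw [if_neg hb, add_zero, hw]
        exact hG u hb
    refine (sum_le_sum fun u _ => h3 u).trans ?_
    rw [sum_add_distrib, sum_const, card_univ, nsmul_eq_mul, ← hQ, ← sum_filter, sum_const, nsmul_eq_mul]
    have h4 : (((univ : Finset Ω).filter bad).card : ℝ) * (2 * a / s) ≤ 2 * a * C₃ / s ^ 3 * Q := by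
      have h5 : (((univ : Finset Ω).filter bad).card : ℝ) ≤ C₃ * Q / q := by
        rw [le_div_iff₀ hq0]
        exact hbad
      calc (((univ : Finset Ω).filter bad).card : ℝ) * (2 * a / s) ≤ C₃ * Q / q * (2 * a / s) :=
            mul_le_mul_of_nonneg_right h5 (by positivity)
        _ = 2 * a * C₃ / s ^ 3 * Q := by
          rw [← hsq]
          field_simp
    have h5 : (B + 2 * a * C₃) / s ^ 3 * Q = Q * (B / s ^ 3) + 2 * a * C₃ / s ^ 3 * Q := by ring
    rw [h5]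
    linarith
  have hw2 : |∑ u, w u - (κ + 1 / 2) / q * Q| ≤ (C₁ + C₂) / s ^ 3 * Q := by
    have h3 : ∑ u, w u - (κ + 1 / 2) / q * Q = (∑ u, t1 u - κ * Q) / q + (∑ u, t2 u - q * Q) / (2 * q ^ 2) := by
      rw [hw]
      show ∑ u, (t1 u / q + t2 u / (2 * q ^ 2)) - _ = _
      rw [sum_add_distrib, ← sum_div, ← sum_div]
      field_simp
      ring
    rw [h3]
    refine (abs_add_le _ _).trans ?_
    have h34 : s ^ 3 ≤ q ^ 2 := by
      rw [← hsq, ← pow_mul]
      exact pow_le_pow_right₀ hs1 (by norm_num)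
    have h4 : |(∑ u, t1 u - κ * Q) / q| ≤ C₁ / s ^ 3 * Q := by
      rw [abs_div, abs_of_pos hq0, div_le_iff₀ hq0]
      have h5 : |∑ u, t1 u - κ * Q| ≤ C₁ * Q / q := by
        rw [le_div_iff₀ hq0]
        exact m1
      refine h5.trans ?_
      rw [div_le_iff₀ hq0]
      have h6 : C₁ / s ^ 3 * Q * q * q = C₁ * Q * (q ^ 2 / s ^ 3) := by ring
      rw [h6]
      have h7 : 1 ≤ q ^ 2 / s ^ 3 := by
        rw [le_div_iff₀ (by positivity), one_mul]
        exact h34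
      calc C₁ * Q = C₁ * Q * 1 := by ring
        _ ≤ _ := mul_le_mul_of_nonneg_left h7 (by positivity)
    have h5 : |(∑ u, t2 u - q * Q) / (2 * q ^ 2)| ≤ C₂ / s ^ 3 * Q := by
      rw [abs_div, abs_of_pos (by positivity : 0 < 2 * q ^ 2), div_le_iff₀ (by positivity)]
      refine m2.trans ?_
      have h6 : C₂ / s ^ 3 * Q * (2 * q ^ 2) = C₂ * Q * (2 * (q ^ 2 / s ^ 3)) := by ring
      rw [h6]
      have h7 : 1 ≤ q ^ 2 / s ^ 3 := by
        rw [le_div_iff₀ (by positivity), one_mul]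
        exact h34
      calc C₂ * Q = C₂ * Q * 1 := by ring
        _ ≤ _ := mul_le_mul_of_nonneg_left (by linarith) (by positivity)
    have h6 : (C₁ + C₂) / s ^ 3 * Q = C₁ / s ^ 3 * Q + C₂ / s ^ 3 * Q := by ring
    rw [h6]
    exact add_le_add h4 h5
  have h3 : (∑ u, G u) / Q - (κ + 1 / 2) / q = (∑ u, G u - (κ + 1 / 2) / q * Q) / Q := by
    field_simp
  rw [h3, abs_div, abs_of_pos hΩ, div_le_iff₀ hΩ]
  have h4 : ∑ u, G u - (κ + 1 / 2) / q * Q = (∑ u, G u - ∑ u, w u) + (∑ u, w u - (κ + 1 / 2) / q * Q) := by ring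
  rw [h4]
  refine (abs_add_le _ _).trans ((add_le_add hGw hw2).trans (le_of_eq ?_))
  ring

section

variable {F : Type} [Field F] [Fintype F] [DecidableEq F] {r m : ℕ}

open Classical in
/-- the local value -/
noncomputable def locJ (g : ℕ) (u : Idx r m → F) : ℝ :=
  if (2 : F) ≠ 0 ∧ Squarefree (fpol u) then Real.log (lv g (fpol u)) else 0

end

open Classical in
theorem locJ_mean (g r m : ℕ) (hrm : r + m = 2 * g + 1) (hrg : r ≤ g) (hg : 1 ≤ g) : ∃ B : ℝ, 0 ≤ B ∧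
    ∀ (F : Type) [Field F] [Fintype F] [DecidableEq F],
    (∀ u : Idx r m → F, |locJ g u| ≤ B / Real.sqrt (Fintype.card F)) ∧
    (ringChar F ≠ 2 → |(∑ u : Idx r m → F, locJ g u) / (Fintype.card F : ℝ) ^ Fintype.card (Idx r m) - (r + 1 / 2) / Fintype.card F| ≤
      B / (Fintype.card F : ℝ) ^ (3 / 2 : ℝ)) := by
  obtain ⟨B, hB0, hB⟩ := lv_log g
  obtain ⟨a, ha⟩ : ∃ a : ℝ, a = 5 * (2 * g + 1) := ⟨_, rfl⟩
  have ha0 : 0 ≤ a := by rw [ha]; positivity
  obtain ⟨C₁, hC₁⟩ : ∃ C₁ : ℝ, C₁ = r * (r ^ 2 + r) := ⟨_, rfl⟩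
  obtain ⟨C₂, hC₂⟩ : ∃ C₂ : ℝ, C₂ = (r + m : ℕ) := ⟨_, rfl⟩
  obtain ⟨C₃, hC₃⟩ : ∃ C₃ : ℝ, C₃ = r ^ 2 + r + g := ⟨_, rfl⟩
  have h1 : 0 ≤ C₁ := by rw [hC₁]; positivity
  have h2 : 0 ≤ C₂ := by rw [hC₂]; positivity
  have h3 : 0 ≤ C₃ := by rw [hC₃]; positivity
  refine ⟨B + 2 * a * C₃ + C₁ + C₂, by positivity, fun F _ _ _ => ⟨?_, ?_⟩⟩
  · intro u
    have hs : 0 < Real.sqrt (Fintype.card F) := Real.sqrt_pos.2 (by exact_mod_cast Fintype.card_pos)
    have hle : B / Real.sqrt (Fintype.card F) ≤ (B + 2 * a * C₃ + C₁ + C₂) / Real.sqrt (Fintype.card F) := by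
      refine div_le_div_of_nonneg_right ?_ hs.le
      have : 0 ≤ 2 * a * C₃ + C₁ + C₂ := by positivity
      linarith
    refine le_trans ?_ hle
    unfold locJ
    split_ifs with h
    · have hF : ringChar F ≠ 2 := by
        intro hc
        apply h.1
        have := CharP.cast_eq_zero F (ringChar F)
        rw [hc] at this
        exact_mod_cast this
      exact (hB F hF (fpol u) (fpol_monic (by omega) u) (by rw [fpol_natDegree (by omega : r ≤ m)]; exact hrm)).1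
    · rw [abs_zero]
      positivity
  · intro hF
    have hq1 : (1 : ℝ) ≤ Fintype.card F := by exact_mod_cast Fintype.card_pos
    have hmon : ∀ u : Idx r m → F, (fpol u).Monic := fun u => fpol_monic (by omega) u
    have hdeg : ∀ u : Idx r m → F, (fpol u).natDegree = 2 * g + 1 := fun u => by
      rw [fpol_natDegree (by omega : r ≤ m)]
      exact hrm
    have hT : ∀ (u : Idx r m → F) (k : ℕ), 1 ≤ k → |(T (fpol u) k : ℝ)| ≤ a * (Real.sqrt (Fintype.card F)) ^ k := by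
      intro u k hk
      have h4 := (T_bound hF (hmon u) (by rw [hdeg]; omega) (odd_ns (hmon u) (hdeg u)) k hk).1
      rw [hdeg] at h4
      refine h4.trans (le_of_eq ?_)
      rw [ha]
      push_cast
      ring
    refine mean_abs a B r C₁ C₂ C₃ ha0 hB0 (Fintype.card F) hq1 ((Fintype.card F : ℝ) ^ Fintype.card (Idx r m)) ?_
      (fun u => (T (fpol u) 1 : ℝ)) (fun u => (T (fpol u) 2 : ℝ)) (fun u => locJ g u) (fun u => ¬ Squarefree (fpol u)) ?_ ?_ ?_ ?_ ?_
      ?_ ?_ (by positivity) h1 h2 h3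
    · rw [Fintype.card_fun]
      push_cast
      rfl
    · intro u
      have := hT u 1 le_rfl
      rwa [pow_one] at this
    · intro u
      have := hT u 2 (by norm_num)
      rwa [Real.sq_sqrt (by positivity)] at this
    · rw [hC₁]
      exact mom_one hF (by omega)
    · rw [hC₂]
      exact mom_two hF (by omega) (by omega)
    · rw [hC₃]
      exact bad_card hrm hrg
    · intro u hu
      unfold locJ
      rw [if_neg (fun h => hu h.2)]
    · intro u hu
      rw [not_not] at hu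
      unfold locJ
      rw [if_pos ⟨Ring.two_ne_zero hF, hu⟩]
      exact (hB F hF (fpol u) (hmon u) (hdeg u)).2

end Q282.JK
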