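import Pool.Agent.Q282.JK.Defs
import Pool.Agent.Q282.JK.Mean
import Pool.Agent.Q282.GK.LawK

/-!
# The local values at the primes of a number field
-/

set_option autoImplicit false

namespace Q282.JK

open Finset NumberField IsDedekindDomain Polynomial Q282.GK
open Pool.Agent.H921R2.TatePole (below deg nm nm_eq)
open Pool.Agent.H341R2.Sharp

section

variable {F : Type} [Field F] [Fintype F] [DecidableEq F]

/-- the number of the points -/
lemma pts_eq (hF : ringChar F ≠ 2) (f : F[X]) (n : ℕ) (hn : 1 ≤ n) :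
    (Nat.card {P : AlgebraicClosure F × AlgebraicClosure F //
      P.1 ^ (Fintype.card F ^ n) = P.1 ∧ P.2 ^ (Fintype.card F ^ n) = P.2 ∧ P.2 ^ 2 = aeval P.1 f} : ℝ) -
      (Fintype.card F : ℝ) ^ n = T f n := by
  classical
  obtain ⟨p, hp⟩ := CharP.exists F
  have : Fact (Nat.Prime p) := ⟨CharP.char_is_prime F p⟩
  have : NeZero n := ⟨by omega⟩
  obtain ⟨E, _, _, _, hfr⟩ : ∃ (E : Type) (_ : Field E) (_ : Fintype E) (_ : Algebra F E), Module.finrank F E = n :=
    ⟨FiniteField.Extension F p n, inferInstance, Fintype.ofFinite _, inferInstance, FiniteField.finrank_extension F p n⟩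
  have hcard : Fintype.card E = Fintype.card F ^ n := by
    rw [Module.card_eq_pow_finrank (K := F) (V := E), hfr]
  have hE : ringChar E ≠ 2 := by
    rwa [← Algebra.ringChar_eq F E]
  obtain ⟨ι⟩ : Nonempty (E →ₐ[F] AlgebraicClosure F) := ⟨IsAlgClosed.lift⟩
  have hinj : Function.Injective ι := (ι : E →+* AlgebraicClosure F).injective
  have hfix : ∀ x : E, (ι x) ^ (Fintype.card F ^ n) = ι x := by
    intro x
    rw [← map_pow, ← hcard, FiniteField.pow_card]
  have hrange : ∀ z : AlgebraicClosure F, z ^ (Fintype.card F ^ n) = z → ∃ x : E, ι x = z := by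
    intro z hz
    let _ : Algebra E (AlgebraicClosure F) := (ι : E →+* AlgebraicClosure F).toAlgebra
    have h1 : (X ^ Fintype.card E - X : E[X]).Splits := by
      rw [splits_iff_card_roots, FiniteField.roots_X_pow_card_sub_X,
        FiniteField.X_pow_card_sub_X_natDegree_eq _ Fintype.one_lt_card]
      rfl
    have h2 : (X ^ Fintype.card E - X : E[X]) ≠ 0 :=
      FiniteField.X_pow_card_sub_X_ne_zero _ Fintype.one_lt_card
    have h3 : ((X ^ Fintype.card E - X : E[X]).map (algebraMap E (AlgebraicClosure F))).IsRoot z := by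
      simp [hcard, hz]
    exact h1.mem_range_of_isRoot h2 h3
  have hbij : Function.Bijective (fun P : {P : E × E // P.2 ^ 2 = aeval P.1 f} =>
      (⟨(ι P.1.1, ι P.1.2), hfix _, hfix _, by
        show (ι P.1.2) ^ 2 = aeval (ι P.1.1) f
        rw [← map_pow, P.2, aeval_algHom_apply]⟩ : {P : AlgebraicClosure F × AlgebraicClosure F //
      P.1 ^ (Fintype.card F ^ n) = P.1 ∧ P.2 ^ (Fintype.card F ^ n) = P.2 ∧ P.2 ^ 2 = aeval P.1 f})) := by
    constructor
    · rintro ⟨⟨x, y⟩, _⟩ ⟨⟨x', y'⟩, _⟩ h
      have h1 := congrArg Subtype.val h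
      have h2 : ι x = ι x' := congrArg Prod.fst h1
      have h3 : ι y = ι y' := congrArg Prod.snd h1
      exact Subtype.ext (Prod.ext (hinj h2) (hinj h3))
    · rintro ⟨⟨x, y⟩, h1, h2, h3⟩
      obtain ⟨x', rfl⟩ := hrange x h1
      obtain ⟨y', rfl⟩ := hrange y h2
      refine ⟨⟨(x', y'), ?_⟩, rfl⟩
      apply hinj
      show ι (y' ^ 2) = ι (aeval x' f)
      rw [map_pow, ← aeval_algHom_apply]
      exact h3
  rw [← Nat.card_congr (Equiv.ofBijective _ hbij), Q282.NF.card_affine hE (fun x => aeval x f), hcard]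
  have h4 := T_eq_sum (E := E) hF f
  rw [hfr] at h4
  rw [h4]
  push_cast
  unfold Q282.BP.ch
  ring

/-- the coefficients -/
lemma exp_eq (f : F[X]) (τ : ℕ → ℝ) (hτ : ∀ n, 1 ≤ n → τ n = T f n) (n : ℕ) : expCoeff τ n = A f n := by
  induction n using Nat.strong_induction_on with
  | _ n ih =>
    rcases n with _ | n
    · rw [expCoeff, A_zero]
      simp
    · have h1 := n_mul_A f (n + 1)
      have h2 : ((n : ℝ) + 1) * (A f (n + 1) : ℝ) = ∑ r ∈ Icc 1 (n + 1), (A f (n + 1 - r) : ℝ) * T f r := by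
        exact_mod_cast h1
      have hn : ((n : ℝ) + 1) ≠ 0 := by positivity
      have h3 : ∀ φ : ℕ → ℝ, ∑ r ∈ Icc 1 (n + 1), φ r = ∑ r : Fin (n + 1), φ (r + 1) := by
        intro φ
        rw [Fin.sum_univ_eq_sum_range (fun r => φ (r + 1)) (n + 1)]
        symm
        refine sum_nbij' (fun r => r + 1) (fun r => r - 1) ?_ ?_ ?_ ?_ ?_
        · intro r hr
          rw [mem_range] at hr
          rw [mem_Icc]
          omega
        · intro r hr
          rw [mem_Icc] at hr
          rw [mem_range]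
          omega
        · intro r _
          exact Nat.add_sub_cancel r 1
        · intro r hr
          rw [mem_Icc] at hr
          exact Nat.sub_add_cancel hr.1
        · intro r _
          rfl
      rw [expCoeff, div_eq_iff hn, mul_comm _ ((n : ℝ) + 1), h2, h3]
      refine sum_congr rfl fun r _ => ?_
      have hr : (r : ℕ) < n + 1 := r.2
      rw [ih (n - r) (by omega), hτ (r + 1) (by omega)]
      congr 3
      omega

end

section

variable {K : Type} [Field K] [NumberField K]

lemma nm_pos (v : HeightOneSpectrum (𝓞 K)) : 0 < Ideal.absNorm v.asIdeal := by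
  have := Pool.Agent.H921R2.TatePole.two_le_nm v
  unfold Pool.Agent.H921R2.TatePole.nm at this
  omega

instance resFinite (v : HeightOneSpectrum (𝓞 K)) : Finite (Res v) :=
  Nat.finite_of_card_ne_zero (α := 𝓞 K ⧸ v.asIdeal) (nm_pos v).ne'

lemma res_card (v : HeightOneSpectrum (𝓞 K)) [Fintype (Res v)] : Fintype.card (Res v) = Ideal.absNorm v.asIdeal := by
  rw [← Nat.card_eq_fintype_card]
  rfl

lemma red_surj (v : HeightOneSpectrum (𝓞 K)) : Function.Surjective (red v) := Ideal.Quotient.mk_surjective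

lemma red_zero (v : HeightOneSpectrum (𝓞 K)) (x : 𝓞 K) : red v x = 0 ↔ x ∈ v.asIdeal := Ideal.Quotient.eq_zero_iff_mem

lemma res_char (v : HeightOneSpectrum (𝓞 K)) : CharP (Res v) (below v : ℕ) := by
  have hp := (nm_eq v).2.2
  have h0 : (((below v : ℕ) : ℕ) : Res v) = 0 := by
    rw [← map_natCast (red v)]
    exact (red_zero v _).2 hp
  exact ringChar.of_eq (CharP.ringChar_of_prime_eq_zero (below v).prop h0)

lemma two_iff (v : HeightOneSpectrum (𝓞 K)) : (2 : 𝓞 K) ∉ v.asIdeal ↔ (2 : Res v) ≠ 0 := by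
  rw [← red_zero, map_ofNat]

lemma res_ring (v : HeightOneSpectrum (𝓞 K)) (h : (2 : Res v) ≠ 0) : ringChar (Res v) ≠ 2 := by
  intro hc
  apply h
  have := CharP.cast_eq_zero (Res v) (ringChar (Res v))
  rw [hc] at this
  exact_mod_cast this

lemma ring_two (v : HeightOneSpectrum (𝓞 K)) (h : 3 ≤ (below v : ℕ)) : ringChar (Res v) ≠ 2 := by
  have := res_char v
  rw [ringChar.eq (Res v) (below v : ℕ)]
  omega

open Classical in
/-- the summand of the logarithm of the product -/
noncomputable def val (f : (𝓞 K)[X]) (v : HeightOneSpectrum (𝓞 K)) : ℝ := if Good f v then Real.log (factor f v) else 0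

lemma factor_eq (f : (𝓞 K)[X]) (hf : f.Monic) (g : ℕ) (hd : f.natDegree = 2 * g + 1) (v : HeightOneSpectrum (𝓞 K))
    [Fintype (Res v)] [DecidableEq (Res v)] (h2 : (2 : Res v) ≠ 0) : factor f v = lv g (f.map (red v)) := by
  unfold factor lv
  rw [hd, ← res_card v]
  refine sum_congr rfl fun n _ => ?_
  congr 1
  refine exp_eq (f.map (red v)) _ (fun n hn => ?_) n
  rw [← pts_eq (res_ring v h2) (f.map (red v)) n hn]
  unfold points
  rw [res_card v]

open Classical in
/-- the local values -/
theorem local_J (K : Type) [Field K] [NumberField K] (g r m : ℕ) (hrm : r + m = 2 * g + 1) (hrg : r ≤ g) (hg : 1 ≤ g) :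
    ∃ B : ℝ, 0 < B ∧ Local K (Idx r m) 3 (r + 1 / 2) B B (fun v t => val (fpol t) v) := by
  obtain ⟨B, hB0, hB⟩ := locJ_mean g r m hrm hrg hg
  refine ⟨B + 1, by positivity, fun v => ?_⟩
  let _ : Fintype (Res v) := Fintype.ofFinite _
  obtain ⟨h1, h2⟩ := hB (Res v)
  refine ⟨Res v, inferInstance, inferInstance, red v, fun u => locJ g u, red_surj v, res_char v, res_card v, ?_, ?_, ?_⟩
  · intro t
    have hmon : (fpol t).Monic := fpol_monic (by omega) t
    have hdeg : (fpol t).natDegree = 2 * g + 1 := by rw [fpol_natDegree (by omega : r ≤ m), hrm]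
    show val (fpol t) v = locJ g (fun i => red v (t i))
    unfold val locJ Good
    rw [← fpol_map, two_iff]
    by_cases hg2 : (2 : Res v) ≠ 0 ∧ Squarefree ((fpol t).map (red v))
    · rw [if_pos hg2, if_pos hg2, factor_eq (fpol t) hmon g hdeg v hg2.1]
    · rw [if_neg hg2, if_neg hg2]
  · intro u
    refine (h1 u).trans ?_
    exact div_le_div_of_nonneg_right (by linarith) (Real.sqrt_nonneg _)
  · intro h3
    refine (h2 (ring_two v h3)).trans ?_
    exact div_le_div_of_nonneg_right (by linarith) (by positivity)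

end

end Q282.JK
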