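import Pool.Agent.Q282.JK.Mean

/-!
# The density of the members which do not show that the marked points are independent modulo two
-/

set_option autoImplicit false
set_option linter.unusedSectionVars false

namespace Q282.JK

open Polynomial Finset
open Pool.Agent.H341R2.Sharp

section

variable {F : Type} [Field F] [Fintype F] [DecidableEq F] {r m : ℕ}

/-- the condition on the marked abscissas -/
def Cnd (S : Finset (Fin r)) (α : F) (u : Idx r m → F) : Prop :=
  (mpt u).eval α ≠ 0 ∧ quadraticChar F (∏ i ∈ S, (u (Sum.inl i) - α)) = -1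

lemma cnd_vv (S : Finset (Fin r)) (α : F) (u : Idx r m → F) (w : F[X]) : Cnd S α (u + vv r m w) ↔ Cnd S α u := by
  unfold Cnd
  rw [mpt_vv]
  have h : ∀ i : Fin r, (u + vv r m w) (Sum.inl i) = u (Sum.inl i) := by
    intro i
    simp [vv]
  simp only [h]

open Classical in
/-- the number of the conditions -/
lemma cnd_card (hF : ringChar F ≠ 2) (S : Finset (Fin r)) (hS : S.Nonempty) (α : F) :
    2 * (((univ : Finset (Idx r m → F)).filter fun u => Cnd S α u).card : ℝ) =
      (((univ : Finset (Idx r m → F)).filter fun u => (mpt u).eval α ≠ 0).card : ℝ) := by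
  obtain ⟨i₀, hi₀⟩ := hS
  -- the sum of the characters
  have h1 : ∑ u : Idx r m → F, (if (∏ i ∈ univ \ S, (α - u (Sum.inl i))) ≠ 0 then (quadraticChar F (∏ i ∈ S, (u (Sum.inl i) - α)) : ℝ) else 0) = 0 := by
    have h2 := avg (fun z : F => z • ea F m i₀) (fun u : Idx r m → F =>
      (if (∏ i ∈ univ \ S, (α - u (Sum.inl i))) ≠ 0 then (quadraticChar F (∏ i ∈ S, (u (Sum.inl i) - α)) : ℝ) else 0))
    have h3 : ∀ u : Idx r m → F, ∑ z : F, (if (∏ i ∈ univ \ S, (α - (u + z • ea F m i₀) (Sum.inl i))) ≠ 0 then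
        (quadraticChar F (∏ i ∈ S, ((u + z • ea F m i₀) (Sum.inl i) - α)) : ℝ) else 0) = 0 := by
      intro u
      have h4 : ∀ z : F, ∏ i ∈ univ \ S, (α - (u + z • ea F m i₀) (Sum.inl i)) = ∏ i ∈ univ \ S, (α - u (Sum.inl i)) := by
        intro z
        refine prod_congr rfl fun i hi => ?_
        have hne : i ≠ i₀ := by
          rintro rfl
          exact (mem_sdiff.1 hi).2 hi₀
        simp [ea, hne]
      have h5 : ∀ z : F, ∏ i ∈ S, ((u + z • ea F m i₀) (Sum.inl i) - α) =
          (u (Sum.inl i₀) - α + 1 * z) * ∏ i ∈ S.erase i₀, (u (Sum.inl i) - α) := by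
        intro z
        rw [← mul_prod_erase S _ hi₀]
        congr 1
        · simp [ea]
          ring
        · refine prod_congr rfl fun i hi => ?_
          have hne : i ≠ i₀ := ne_of_mem_erase hi
          simp [ea, hne]
      simp only [h4, h5]
      split_ifs with h6
      · simp only [map_mul]
        push_cast
        rw [← sum_mul, sum_char hF _ _ one_ne_zero, zero_mul]
      · exact sum_const_zero
    rw [sum_congr rfl fun u _ => h3 u, sum_const_zero] at h2
    have hZ : (Fintype.card F : ℝ) ≠ 0 := by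
      exact_mod_cast Fintype.card_ne_zero
    exact (mul_eq_zero.1 h2).resolve_left hZ
  have h2 : ∀ u : Idx r m → F, 2 * (if Cnd S α u then (1 : ℝ) else 0) = (if (mpt u).eval α ≠ 0 then (1 : ℝ) else 0) -
      (if (∏ i ∈ univ \ S, (α - u (Sum.inl i))) ≠ 0 then (quadraticChar F (∏ i ∈ S, (u (Sum.inl i) - α)) : ℝ) else 0) := by
    intro u
    have h3 : (mpt u).eval α = (∏ i ∈ univ \ S, (α - u (Sum.inl i))) * ∏ i ∈ S, (α - u (Sum.inl i)) := by
      rw [mpt_eval, mul_comm, ← prod_union (disjoint_sdiff), union_sdiff_of_subset (subset_univ S)]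
    have h4 : ∏ i ∈ S, (α - u (Sum.inl i)) = 0 ↔ ∏ i ∈ S, (u (Sum.inl i) - α) = 0 := by
      rw [prod_eq_zero_iff, prod_eq_zero_iff]
      constructor
      · rintro ⟨i, hi, h⟩
        exact ⟨i, hi, by rw [← neg_sub, h, neg_zero]⟩
      · rintro ⟨i, hi, h⟩
        exact ⟨i, hi, by rw [← neg_sub, h, neg_zero]⟩
    by_cases hA : ∏ i ∈ univ \ S, (α - u (Sum.inl i)) = 0
    · have h5 : (mpt u).eval α = 0 := by rw [h3, hA, zero_mul]
      have h6 : ¬ Cnd S α u := fun h => h.1 h5
      rw [if_neg h6, if_neg (not_not.2 h5), if_neg (not_not.2 hA)]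
      norm_num
    · rw [if_pos hA]
      by_cases hB : ∏ i ∈ S, (u (Sum.inl i) - α) = 0
      · have h5 : (mpt u).eval α = 0 := by rw [h3, h4.2 hB, mul_zero]
        have h6 : ¬ Cnd S α u := fun h => h.1 h5
        rw [if_neg h6, if_neg (not_not.2 h5), hB]
        simp
      · have h5 : (mpt u).eval α ≠ 0 := by
          rw [h3]
          exact mul_ne_zero hA (fun h => hB (h4.1 h))
        rw [if_pos h5]
        rcases quadraticChar_dichotomy hB with h | h
        · have h6 : ¬ Cnd S α u := by
            intro hc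
            rw [hc.2] at h
            norm_num at h
          rw [if_neg h6, h]
          norm_num
        · rw [if_pos ⟨h5, h⟩, h]
          norm_num
  have h3 := sum_congr rfl fun (u : Idx r m → F) (_ : u ∈ univ) => h2 u
  rw [sum_sub_distrib, h1, sub_zero, ← mul_sum, ← sum_filter, ← sum_filter, sum_const, sum_const, nsmul_eq_mul, nsmul_eq_mul,
    mul_one, mul_one] at h3
  exact h3

open Classical in
lemma mpt_card (α : F) : (((univ : Finset (Idx r m → F)).filter fun u => (mpt u).eval α = 0).card : ℝ) * Fintype.card F ≤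
    r * (Fintype.card F : ℝ) ^ Fintype.card (Idx r m) := by
  have hq0 : (0 : ℝ) < Fintype.card F := by exact_mod_cast Fintype.card_pos
  have h2 : ∀ i : Fin r,
      (((univ : Finset (Idx r m → F)).filter fun u => u (Sum.inl i) = α).card : ℝ) * Fintype.card F ≤
        (Fintype.card F : ℝ) ^ Fintype.card (Idx r m) := by
    intro i
    refine few (ea F m i) (fun u => u (Sum.inl i) = α) ?_
    intro u z z' hz hz'
    simp [ea] at hz hz'
    exact add_left_cancel (hz.trans hz'.symm)
  have hsub : (univ : Finset (Idx r m → F)).filter (fun u => (mpt u).eval α = 0) ⊆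
      (univ : Finset (Fin r)).biUnion (fun i => (univ : Finset (Idx r m → F)).filter fun u => u (Sum.inl i) = α) := by
    intro u hu
    rw [mem_filter, mpt_eval, prod_eq_zero_iff] at hu
    obtain ⟨-, i, -, hi⟩ := hu
    exact mem_biUnion.2 ⟨i, mem_univ _, mem_filter.2 ⟨mem_univ _, (sub_eq_zero.1 hi).symm⟩⟩
  have h3 := (card_le_card hsub).trans card_biUnion_le
  have h4 := (Nat.cast_le (α := ℝ)).2 h3
  push_cast at h4
  have h5 := mul_le_mul_of_nonneg_right h4 hq0.le
  refine h5.trans ?_
  rw [sum_mul]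
  refine (sum_le_sum fun i _ => h2 i).trans (le_of_eq ?_)
  rw [sum_const, card_univ, Fintype.card_fin, nsmul_eq_mul]

open Classical in
/-- The density of the members which do not show that the product over `S` is not a square. -/
theorem dens_S (hF : ringChar F ≠ 2) (hm : 2 ≤ m) (S : Finset (Fin r)) (hS : S.Nonempty) (hq : 10 * r ≤ Fintype.card F) :
    (((univ : Finset (Idx r m → F)).filter fun u => ∀ α : F, (fpol u).eval α = 0 → (∀ i, u (Sum.inl i) ≠ α) →
      IsSquare (∏ i ∈ S, (u (Sum.inl i) - α))).card : ℝ) ≤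
      1 / (5 / 4) * (Fintype.card F : ℝ) ^ Fintype.card (Idx r m) := by
  obtain ⟨q, hqq⟩ : ∃ q : ℝ, q = Fintype.card F := ⟨_, rfl⟩
  have hq0 : 0 < q := by rw [hqq]; exact_mod_cast Fintype.card_pos
  obtain ⟨Q, hQ⟩ : ∃ Q : ℝ, Q = (Fintype.card F : ℝ) ^ Fintype.card (Idx r m) := ⟨_, rfl⟩
  have hQ0 : 0 < Q := by rw [hQ, ← hqq]; positivity
  have hQc : (Fintype.card (Idx r m → F) : ℝ) = Q := by
    rw [hQ, Fintype.card_fun]
    push_cast
    rfl
  obtain ⟨Z, hZ⟩ : ∃ Z : (Idx r m → F) → ℝ, Z = fun u => ∑ α : F, if (fpol u).eval α = 0 ∧ Cnd S α u then (1 : ℝ) else 0 := ⟨_, rfl⟩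
  -- the first moment
  have hc1 : ∀ α : F, q * ∑ u : Idx r m → F, (if (fpol u).eval α = 0 ∧ Cnd S α u then (1 : ℝ) else 0) =
      (((univ : Finset (Idx r m → F)).filter fun u => Cnd S α u).card : ℝ) := by
    intro α
    have h2 := avg (fun z : F => vv r m (C z)) (fun u : Idx r m → F => if (fpol u).eval α = 0 ∧ Cnd S α u then (1 : ℝ) else 0)
    rw [← hqq] at h2
    rw [h2]
    have h3 : ∀ u : Idx r m → F, ∑ z : F, (if (fpol (u + vv r m (C z))).eval α = 0 ∧ Cnd S α (u + vv r m (C z)) then (1 : ℝ) else 0) =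
        if Cnd S α u then 1 else 0 := by
      intro u
      have hdeg : ∀ z : F, (C z).degree < (m : WithBot ℕ) := fun z =>
        lt_of_le_of_lt degree_C_le (by exact_mod_cast (by omega : 0 < m))
      by_cases hc : Cnd S α u
      · rw [if_pos hc]
        have hM := hc.1
        rw [sum_eq_single (-(fpol u).eval α / (mpt u).eval α)]
        · rw [if_pos]
          rw [cnd_vv, fpol_vv _ _ (hdeg _)]
          refine ⟨?_, hc⟩
          rw [eval_add, eval_mul, eval_C]
          field_simp
          ring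
        · intro z _ hne
          rw [if_neg]
          rintro ⟨h, -⟩
          apply hne
          rw [fpol_vv _ _ (hdeg _), eval_add, eval_mul, eval_C] at h
          rw [eq_div_iff hM]
          linear_combination h
        · intro h
          exact absurd (mem_univ _) h
      · rw [if_neg hc]
        refine sum_eq_zero fun z _ => ?_
        rw [if_neg]
        rintro ⟨-, h⟩
        exact hc ((cnd_vv S α u _).1 h)
    rw [sum_congr rfl fun u _ => h3 u, ← sum_filter, sum_const, nsmul_eq_mul, mul_one]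
  have hZ1 : (1 / 2) * (q - r) * Q ≤ q * ∑ u, Z u := by
    have h2 : q * ∑ u, Z u = ∑ α : F, (((univ : Finset (Idx r m → F)).filter fun u => Cnd S α u).card : ℝ) := by
      rw [hZ, sum_comm, mul_sum]
      exact sum_congr rfl fun α _ => hc1 α
    rw [h2]
    have h3 : ∀ α : F, (1 / 2) * (1 - r / q) * Q ≤ (((univ : Finset (Idx r m → F)).filter fun u => Cnd S α u).card : ℝ) := by
      intro α
      have h4 := cnd_card (m := m) hF S hS α
      have h5 := mpt_card (r := r) (m := m) α
      rw [← hQ, ← hqq] at h5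
      have h6 : (((univ : Finset (Idx r m → F)).filter fun u => (mpt u).eval α = 0).card : ℝ) +
          (((univ : Finset (Idx r m → F)).filter fun u => (mpt u).eval α ≠ 0).card : ℝ) = Q := by
        rw [← hQc, ← card_univ]
        exact_mod_cast card_filter_add_card_filter_not _
      have h7 : (((univ : Finset (Idx r m → F)).filter fun u => (mpt u).eval α = 0).card : ℝ) ≤ r / q * Q := by
        rw [div_mul_eq_mul_div, le_div_iff₀ hq0]
        exact h5
      nlinarith
    refine le_trans (le_of_eq ?_) (sum_le_sum fun α _ => h3 α)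
    rw [sum_const, card_univ, nsmul_eq_mul, ← hqq]
    field_simp
  -- the second moment
  have hc2 : ∀ α β : F, α ≠ β → q ^ 2 * ∑ u : Idx r m → F,
      ((if (fpol u).eval α = 0 ∧ Cnd S α u then (1 : ℝ) else 0) * (if (fpol u).eval β = 0 ∧ Cnd S β u then (1 : ℝ) else 0)) ≤
      Q / 2 := by
    intro α β hαβ
    have h2 := avg (fun z : F × F => vv r m (C z.1 + C z.2 * X)) (fun u : Idx r m → F =>
      (if (fpol u).eval α = 0 ∧ Cnd S α u then (1 : ℝ) else 0) * (if (fpol u).eval β = 0 ∧ Cnd S β u then (1 : ℝ) else 0))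
    have hcardFF : (Fintype.card (F × F) : ℝ) = q ^ 2 := by
      rw [Fintype.card_prod, hqq]
      push_cast
      ring
    rw [hcardFF] at h2
    rw [h2]
    have hdeg : ∀ z : F × F, (C z.1 + C z.2 * X).degree < (m : WithBot ℕ) := by
      intro z
      refine lt_of_le_of_lt (b := (1 : WithBot ℕ)) ?_ (by exact_mod_cast (by omega : 1 < m))
      rw [add_comm]
      exact degree_linear_le
    have h3 : ∀ u : Idx r m → F, ∑ z : F × F,
        ((if (fpol (u + vv r m (C z.1 + C z.2 * X))).eval α = 0 ∧ Cnd S α (u + vv r m (C z.1 + C z.2 * X)) then (1 : ℝ) else 0) *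
        (if (fpol (u + vv r m (C z.1 + C z.2 * X))).eval β = 0 ∧ Cnd S β (u + vv r m (C z.1 + C z.2 * X)) then (1 : ℝ) else 0)) ≤
        if Cnd S α u then 1 else 0 := by
      intro u
      by_cases hc : Cnd S α u ∧ Cnd S β u
      · rw [if_pos hc.1]
        have h4 : ∀ z : F × F, ((if (fpol (u + vv r m (C z.1 + C z.2 * X))).eval α = 0 ∧ Cnd S α (u + vv r m (C z.1 + C z.2 * X)) then (1 : ℝ) else 0) *
            (if (fpol (u + vv r m (C z.1 + C z.2 * X))).eval β = 0 ∧ Cnd S β (u + vv r m (C z.1 + C z.2 * X)) then (1 : ℝ) else 0)) =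
            if ((fpol u).eval α + (mpt u).eval α * (z.1 + z.2 * α) = 0 ∧ (fpol u).eval β + (mpt u).eval β * (z.1 + z.2 * β) = 0)
              then 1 else 0 := by
          intro z
          rw [cnd_vv, cnd_vv, fpol_vv _ _ (hdeg z)]
          simp only [eval_add, eval_mul, eval_C, eval_X, hc.1, hc.2, and_true]
          split_ifs <;> simp_all
        rw [sum_congr rfl fun z _ => h4 z, ← sum_filter, sum_const, nsmul_eq_mul, mul_one]
        have h5 : ((univ : Finset (F × F)).filter fun z =>
            ((fpol u).eval α + (mpt u).eval α * (z.1 + z.2 * α) = 0 ∧ (fpol u).eval β + (mpt u).eval β * (z.1 + z.2 * β) = 0)).card ≤ 1 := by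
          rw [card_le_one]
          rintro ⟨a, b⟩ hz ⟨a', b'⟩ hz'
          rw [mem_filter] at hz hz'
          obtain ⟨-, e1, e2⟩ := hz
          obtain ⟨-, e3, e4⟩ := hz'
          have hM := hc.1.1
          have hM' := hc.2.1
          have e5 : (a + b * α) = (a' + b' * α) := by
            have : (mpt u).eval α * ((a + b * α) - (a' + b' * α)) = 0 := by linear_combination e1 - e3
            exact sub_eq_zero.1 ((mul_eq_zero.1 this).resolve_left hM)
          have e6 : (a + b * β) = (a' + b' * β) := by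
            have : (mpt u).eval β * ((a + b * β) - (a' + b' * β)) = 0 := by linear_combination e2 - e4
            exact sub_eq_zero.1 ((mul_eq_zero.1 this).resolve_left hM')
          have e7 : (b - b') * (α - β) = 0 := by linear_combination e5 - e6
          have e8 : b = b' := sub_eq_zero.1 ((mul_eq_zero.1 e7).resolve_right (sub_ne_zero.2 hαβ))
          subst e8
          have e9 : a = a' := add_right_cancel e5
          rw [e9]
        exact_mod_cast h5
      · have h4 : ∀ z : F × F, ((if (fpol (u + vv r m (C z.1 + C z.2 * X))).eval α = 0 ∧ Cnd S α (u + vv r m (C z.1 + C z.2 * X)) then (1 : ℝ) else 0) *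
            (if (fpol (u + vv r m (C z.1 + C z.2 * X))).eval β = 0 ∧ Cnd S β (u + vv r m (C z.1 + C z.2 * X)) then (1 : ℝ) else 0)) = 0 := by
          intro z
          rw [cnd_vv, cnd_vv]
          by_cases h5 : Cnd S α u
          · have h6 : ¬ Cnd S β u := fun h => hc ⟨h5, h⟩
            simp [h6]
          · simp [h5]
        rw [sum_congr rfl fun z _ => h4 z, sum_const_zero]
        split_ifs <;> norm_num
    refine (sum_le_sum fun u _ => h3 u).trans ?_
    rw [← sum_filter, sum_const, nsmul_eq_mul, mul_one]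
    have h4 := cnd_card (m := m) hF S hS α
    have h5 : (((univ : Finset (Idx r m → F)).filter fun u => (mpt u).eval α ≠ 0).card : ℝ) ≤ Q := by
      rw [← hQc]
      exact_mod_cast card_le_univ _
    linarith
  have hZ2 : ∑ u, (Z u ^ 2 - Z u) ≤ Q / 2 := by
    have h2 : ∀ u, Z u ^ 2 - Z u = ∑ α : F, ∑ β ∈ univ.erase α,
        ((if (fpol u).eval α = 0 ∧ Cnd S α u then (1 : ℝ) else 0) * (if (fpol u).eval β = 0 ∧ Cnd S β u then (1 : ℝ) else 0)) := by
      intro u
      rw [hZ]
      show (∑ α : F, if (fpol u).eval α = 0 ∧ Cnd S α u then (1 : ℝ) else 0) ^ 2 - _ = _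
      rw [sq, sum_mul_sum, ← sum_sub_distrib]
      refine sum_congr rfl fun α _ => ?_
      rw [← add_sum_erase univ _ (mem_univ α)]
      have h3 : (if (fpol u).eval α = 0 ∧ Cnd S α u then (1 : ℝ) else 0) * (if (fpol u).eval α = 0 ∧ Cnd S α u then (1 : ℝ) else 0) =
          if (fpol u).eval α = 0 ∧ Cnd S α u then (1 : ℝ) else 0 := by
        split_ifs <;> norm_num
      rw [h3]
      ring
    have h3 : q ^ 2 * ∑ u, (Z u ^ 2 - Z u) ≤ q ^ 2 * (Q / 2) := by
      rw [sum_congr rfl fun u _ => h2 u, sum_comm, mul_sum]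
      have h4 : ∀ α : F, q ^ 2 * ∑ u : Idx r m → F, ∑ β ∈ univ.erase α,
          ((if (fpol u).eval α = 0 ∧ Cnd S α u then (1 : ℝ) else 0) * (if (fpol u).eval β = 0 ∧ Cnd S β u then (1 : ℝ) else 0)) ≤
          q * (Q / 2) := by
        intro α
        rw [sum_comm, mul_sum]
        refine (sum_le_sum fun β hβ => hc2 α β (ne_of_mem_erase hβ).symm).trans ?_
        rw [sum_const, nsmul_eq_mul]
        refine mul_le_mul_of_nonneg_right ?_ (by positivity)
        rw [hqq]
        exact_mod_cast card_le_univ _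
      refine (sum_le_sum fun α _ => h4 α).trans (le_of_eq ?_)
      rw [sum_const, card_univ, nsmul_eq_mul, ← hqq]
      ring
    exact le_of_mul_le_mul_left h3 (by positivity)
  -- the conclusion
  have hpt : ∀ u : Idx r m → F, (if (∀ α : F, (fpol u).eval α = 0 → (∀ i, u (Sum.inl i) ≠ α) →
      IsSquare (∏ i ∈ S, (u (Sum.inl i) - α))) then (1 : ℝ) else 0) ≤ 1 - Z u + (Z u ^ 2 - Z u) / 2 := by
    intro u
    obtain ⟨n, hn⟩ : ∃ n : ℕ, Z u = n := by
      refine ⟨((univ : Finset F).filter fun α => (fpol u).eval α = 0 ∧ Cnd S α u).card, ?_⟩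
      rw [hZ]
      show (∑ α : F, if (fpol u).eval α = 0 ∧ Cnd S α u then (1 : ℝ) else 0) = _
      rw [← sum_filter, sum_const, nsmul_eq_mul, mul_one]
    split_ifs with h
    · have h0 : Z u = 0 := by
        rw [hZ]
        refine sum_eq_zero fun α _ => ?_
        rw [if_neg]
        rintro ⟨h1, h2⟩
        have hne : ∀ i, u (Sum.inl i) ≠ α := by
          intro i hi
          apply h2.1
          rw [mpt_eval]
          exact prod_eq_zero (mem_univ i) (sub_eq_zero.2 hi.symm)
        have h3 := h α h1 hne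
        have h4 : ∏ i ∈ S, (u (Sum.inl i) - α) ≠ 0 := prod_ne_zero_iff.2 fun i _ => sub_ne_zero.2 (hne i)
        have h5 := (quadraticChar_one_iff_isSquare h4).2 h3
        rw [h2.2] at h5
        norm_num at h5
      rw [h0]
      norm_num
    · rw [hn]
      rcases Nat.lt_or_ge n 2 with h1 | h1
      · interval_cases n <;> norm_num
      · have h2 : (2 : ℝ) ≤ n := by exact_mod_cast h1
        nlinarith
  have hfin := sum_le_sum fun (u : Idx r m → F) (_ : u ∈ univ) => hpt u
  rw [← sum_filter, sum_const, nsmul_eq_mul, mul_one, sum_add_distrib, sum_sub_distrib, sum_const, card_univ, nsmul_eq_mul,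
    mul_one, ← sum_div, hQc] at hfin
  have hr10 : 10 * (r : ℝ) ≤ q := by
    rw [hqq]
    exact_mod_cast hq
  have hZ1' : (1 / 2) * (1 - r / q) * Q ≤ ∑ u, Z u := by
    have h2 : q * ((1 / 2) * (1 - r / q) * Q) ≤ q * ∑ u, Z u := by
      refine le_trans (le_of_eq ?_) hZ1
      field_simp
    exact le_of_mul_le_mul_left h2 hq0
  have hrq : (r : ℝ) / q ≤ 1 / 10 := by
    rw [div_le_div_iff₀ hq0 (by norm_num)]
    linarith
  rw [← hQ]
  have h9 : (1 / 2) * (1 - 1 / 10) * Q ≤ (1 / 2) * (1 - r / q) * Q := by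
    refine mul_le_mul_of_nonneg_right ?_ hQ0.le
    linarith
  norm_num at hfin hZ2 h9 ⊢
  linarith

end

end Q282.JK
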