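import Pool.Agent.Q282.JK.Mean

/-!
# The density of the irreducible members
-/

set_option autoImplicit false
set_option linter.unusedSectionVars false

namespace Q282.JK

open Polynomial Finset
open Pool.Agent.H341R2.Sharp

section

variable {F : Type} [Field F] [Fintype F] [DecidableEq F] {r m : ℕ}

open Classical in
/-- there are many irreducible polynomials -/
lemma irr_card (D : ℕ) (hD : 1 ≤ D) (hq : 3 ≤ Fintype.card F) :
    (Fintype.card F : ℝ) ^ D ≤ 2 * D * (((Mon F D).filter Irreducible).card : ℝ) := by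
  obtain ⟨p, hp⟩ := CharP.exists F
  have : Fact (Nat.Prime p) := ⟨CharP.char_is_prime F p⟩
  have : NeZero D := ⟨by omega⟩
  obtain ⟨E, _, _, _, hfr⟩ : ∃ (E : Type) (_ : Field E) (_ : Fintype E) (_ : Algebra F E), Module.finrank F E = D :=
    ⟨FiniteField.Extension F p D, inferInstance, Fintype.ofFinite _, inferInstance, FiniteField.finrank_extension F p D⟩
  have hcard : Fintype.card E = Fintype.card F ^ D := by
    rw [Module.card_eq_pow_finrank (K := F) (V := E), hfr]
  obtain ⟨q, hqq⟩ : ∃ q : ℕ, q = Fintype.card F := ⟨_, rfl⟩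
  rw [← hqq] at hq hcard ⊢
  have hint : ∀ x : E, IsIntegral F x := fun x => Algebra.IsIntegral.isIntegral x
  have hdeg : ∀ x : E, 1 ≤ (minpoly F x).natDegree ∧ (minpoly F x).natDegree ≤ D := by
    intro x
    refine ⟨minpoly.natDegree_pos (hint x), ?_⟩
    have := (finrank_div (F := F) x).2
    rw [hfr] at this
    exact Nat.le_of_dvd (by omega) this
  -- the elements of smaller degree
  have hsmall : ((univ : Finset E).filter fun x => (minpoly F x).natDegree ≠ D).card ≤ ∑ k ∈ Ico 1 D, q ^ k := by
    have hsub : (univ : Finset E).filter (fun x => (minpoly F x).natDegree ≠ D) ⊆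
        (Ico 1 D).biUnion fun k => (X ^ q ^ k - X : E[X]).roots.toFinset := by
      intro x hx
      rw [mem_filter] at hx
      have h1 := hdeg x
      rw [mem_biUnion]
      refine ⟨(minpoly F x).natDegree, mem_Ico.2 ⟨h1.1, by omega⟩, ?_⟩
      have hk : 1 < q ^ (minpoly F x).natDegree := Nat.one_lt_pow (by omega) (by omega)
      rw [Multiset.mem_toFinset, mem_roots (FiniteField.X_pow_card_sub_X_ne_zero E hk), IsRoot.def]
      have h2 : minpoly F x ∣ X ^ (Nat.card F) ^ (minpoly F x).natDegree - X :=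
        ((minpoly.irreducible (hint x)).natDegree_dvd_iff_dvd_X_pow_card_pow_sub_X).1 dvd_rfl
      obtain ⟨G, hG⟩ := h2
      have h3 : aeval x (X ^ (Nat.card F) ^ (minpoly F x).natDegree - X : F[X]) = 0 := by
        rw [hG, map_mul, minpoly.aeval, zero_mul]
      simp only [map_sub, map_pow, aeval_X] at h3
      rw [eval_sub, eval_pow, eval_X, hqq, ← Nat.card_eq_fintype_card]
      exact h3
    refine (card_le_card hsub).trans (card_biUnion_le.trans (sum_le_sum fun k hk => ?_))
    rw [mem_Ico] at hk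
    have hk' : 1 < q ^ k := Nat.one_lt_pow (by omega) (by omega)
    refine (Multiset.toFinset_card_le _).trans ((card_roots' _).trans (le_of_eq ?_))
    exact FiniteField.X_pow_card_sub_X_natDegree_eq E hk'
  have hgeo : 2 * ∑ k ∈ Ico 1 D, q ^ k ≤ q ^ D := by
    have h1 : ∀ n : ℕ, 2 * ∑ k ∈ range n, q ^ k ≤ q ^ n := by
      intro n
      induction n with
      | zero => simp
      | succ n ih =>
        rw [sum_range_succ, mul_add, pow_succ]
        have : q ^ n * 3 ≤ q ^ n * q := Nat.mul_le_mul_left _ hq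
        omega
    refine le_trans (Nat.mul_le_mul_left 2 ?_) (h1 D)
    refine sum_le_sum_of_subset ?_
    intro k hk
    rw [mem_Ico] at hk
    exact mem_range.2 hk.2
  have hlarge : ((univ : Finset E).filter fun x => (minpoly F x).natDegree = D).card ≤ D * ((Mon F D).filter Irreducible).card := by
    refine card_le_mul_card_image_of_maps_to (f := fun x => minpoly F x) ?_ D ?_
    · intro x hx
      rw [mem_filter] at hx
      exact mem_filter.2 ⟨mem_Mon.2 ⟨minpoly.monic (hint x), hx.2⟩, minpoly.irreducible (hint x)⟩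
    · intro P hP
      rw [mem_filter, mem_Mon] at hP
      have hsub : ((univ : Finset E).filter fun x => (minpoly F x).natDegree = D).filter (fun x => minpoly F x = P) ⊆
          (P.aroots E).toFinset := by
        intro x hx
        rw [mem_filter] at hx
        rw [Multiset.mem_toFinset, mem_aroots]
        refine ⟨hP.1.1.ne_zero, ?_⟩
        rw [← hx.2]
        exact minpoly.aeval F x
      refine (card_le_card hsub).trans ((Multiset.toFinset_card_le _).trans ((card_roots' _).trans ?_))
      rw [natDegree_map, hP.1.2]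
  have htot : ((univ : Finset E).filter fun x => (minpoly F x).natDegree = D).card +
      ((univ : Finset E).filter fun x => (minpoly F x).natDegree ≠ D).card = q ^ D := by
    rw [← hcard, ← card_univ]
    exact card_filter_add_card_filter_not _
  have hfin : q ^ D ≤ 2 * (D * ((Mon F D).filter Irreducible).card) := by omega
  have h2 : (q : ℝ) ^ D ≤ 2 * (D * (((Mon F D).filter Irreducible).card : ℝ)) := by exact_mod_cast hfin
  linarith

/-- interpolation -/
lemma exists_u (hrm : r ≤ m) (P : F[X]) (hP : P.Monic) (hd : P.natDegree = r + m) (a : Fin r → F) (ha : Function.Injective a)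
    (hsq : ∀ i, ∃ y : F, y ^ 2 = P.eval (a i)) : ∃ u : Idx r m → F, fpol u = P ∧ ∀ i, u (Sum.inl i) = a i := by
  choose y hy using hsq
  obtain ⟨L, hL⟩ : ∃ L : F[X], L = Lagrange.interpolate univ a y := ⟨_, rfl⟩
  have hinj : Set.InjOn a (univ : Finset (Fin r)) := ha.injOn
  have hLd : L.degree < r := by
    rw [hL]
    have := Lagrange.degree_interpolate_lt y hinj
    rwa [card_univ, Fintype.card_fin] at this
  have hLe : ∀ i, L.eval (a i) = y i := by
    intro i
    rw [hL]
    exact Lagrange.eval_interpolate_at_node y hinj (mem_univ i)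
  obtain ⟨c, hc⟩ := Q282.HL.exists_low hLd
  -- the quotient
  have hdvd : (∏ i : Fin r, (X - C (a i))) ∣ P - L ^ 2 := by
    refine Finset.prod_dvd_of_coprime ?_ ?_
    · intro i _ j _ hij
      exact isCoprime_X_sub_C_of_isUnit_sub (sub_ne_zero.2 fun h => hij (ha h)).isUnit
    · intro i _
      rw [dvd_iff_isRoot, IsRoot.def, eval_sub, eval_pow, hLe, hy, sub_self]
  obtain ⟨H, hH⟩ := hdvd
  have hMm : (∏ i : Fin r, (X - C (a i))).Monic := monic_prod_of_monic _ _ fun _ _ => monic_X_sub_C _
  have hMd : (∏ i : Fin r, (X - C (a i))).natDegree = r := by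
    rw [natDegree_prod_of_monic _ _ fun _ _ => monic_X_sub_C _]
    simp
  have hL2 : (L ^ 2).degree < P.degree := by
    have := lpt_sq_degree (R := F) hrm (Sum.elim a (Sum.elim (fun _ : Fin m => (0 : F)) c))
    rw [degree_eq_natDegree hP.ne_zero, hd]
    have e : lpt (Sum.elim a (Sum.elim (fun _ : Fin m => (0 : F)) c)) = L := by
      rw [← hc]
      rfl
    rw [e] at this
    exact this
  have hPm : (P - L ^ 2).Monic := by
    rw [sub_eq_add_neg]
    refine hP.add_of_left ?_
    rw [degree_neg]
    exact hL2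
  have hPd : (P - L ^ 2).natDegree = r + m := by
    rw [← hd]
    exact natDegree_eq_of_degree_eq (degree_sub_eq_left_of_degree_lt hL2)
  have hHm : H.Monic := hMm.of_mul_monic_left (by rw [← hH]; exact hPm)
  have hHd : H.natDegree = m := by
    rw [hH, hMm.natDegree_mul hHm, hMd] at hPd
    omega
  have hHX : (H - X ^ m).degree < (m : WithBot ℕ) := by
    have h3 : (H - X ^ m).degree < H.degree := by
      refine degree_sub_lt_left ?_ hHm.ne_zero ?_
      · rw [degree_X_pow, degree_eq_natDegree hHm.ne_zero, hHd]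
      · rw [hHm.leadingCoeff, leadingCoeff_X_pow]
    rwa [degree_eq_natDegree hHm.ne_zero, hHd] at h3
  obtain ⟨b, hb⟩ := Q282.HL.exists_low hHX
  refine ⟨Sum.elim a (Sum.elim b c), ?_, fun i => rfl⟩
  have e1 : mpt (Sum.elim a (Sum.elim b c)) = ∏ i : Fin r, (X - C (a i)) := rfl
  have e2 : lpt (Sum.elim a (Sum.elim b c)) = L := by
    rw [← hc]
    rfl
  have e3 : hpt (Sum.elim a (Sum.elim b c)) = H := by
    have h4 : hpt (Sum.elim a (Sum.elim b c)) = X ^ m + Q282.HL.low m b := rfl
    rw [h4, hb]
    ring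
  unfold fpol
  rw [e1, e2, e3, ← hH]
  ring

open Classical in
/-- the values which are squares -/
lemma sq_vals (hF : ringChar F ≠ 2) (P : F[X]) (hP : P.Monic) (g : ℕ) (hd : P.natDegree = 2 * g + 1)
    (hq : 4 * (2 * g + 1) ^ 2 ≤ Fintype.card F) :
    (Fintype.card F : ℝ) ≤ 8 * (((univ : Finset F).filter fun x => ∃ y : F, y ^ 2 = P.eval x).card : ℝ) := by
  obtain ⟨q, hqq⟩ : ∃ q : ℝ, q = Fintype.card F := ⟨_, rfl⟩
  obtain ⟨s, hs⟩ : ∃ s : ℝ, s = Real.sqrt q := ⟨_, rfl⟩
  have hq0 : 0 < q := by rw [hqq]; exact_mod_cast Fintype.card_pos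
  have hsq : s ^ 2 = q := by
    rw [hs]
    exact Real.sq_sqrt hq0.le
  have hs0 : 0 ≤ s := by rw [hs]; exact Real.sqrt_nonneg _
  have hq' : 4 * (2 * (g : ℝ) + 1) ^ 2 ≤ q := by
    rw [hqq]
    exact_mod_cast hq
  have hsD : 2 * (2 * (g : ℝ) + 1) ≤ s := by
    rw [hs, Real.le_sqrt (by positivity) hq0.le]
    nlinarith
  have h1 := weil_sharp_monic hF hP (by omega) (odd_ns hP hd)
  rw [hd, ← hqq, ← hs] at h1
  rw [← hqq]
  have h2 : ∀ x : F, (quadraticChar F (P.eval x) : ℝ) + 1 ≤ 2 * if ∃ y : F, y ^ 2 = P.eval x then 1 else 0 := by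
    intro x
    split_ifs with h
    · have h3 : (quadraticChar F (P.eval x) : ℝ) ≤ 1 := by
        by_cases h0 : P.eval x = 0
        · rw [h0]
          simp
        · rcases quadraticChar_dichotomy h0 with h | h <;> rw [h] <;> norm_num
      linarith
    · have h0 : P.eval x ≠ 0 := by
        intro h0
        exact h ⟨0, by rw [h0]; ring⟩
      have h3 : quadraticChar F (P.eval x) = -1 := by
        refine (quadraticChar_neg_one_iff_not_isSquare).2 ?_
        rintro ⟨y, hy⟩
        exact h ⟨y, by rw [hy]; ring⟩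
      rw [h3]
      norm_num
  have h3 := sum_le_sum fun (x : F) (_ : x ∈ univ) => h2 x
  rw [sum_add_distrib, sum_const, card_univ, nsmul_eq_mul, mul_one, ← mul_sum, ← sum_filter, sum_const, nsmul_eq_mul,
    mul_one, ← hqq] at h3
  have h4 := (abs_le.1 h1).1
  push_cast at h4
  have h5 : (2 * (g : ℝ) + 1 - 1) * s ≤ q / 2 := by
    have h6 : (2 * (g : ℝ) + 1 - 1) ≤ s / 2 := by linarith
    calc (2 * (g : ℝ) + 1 - 1) * s ≤ s / 2 * s := mul_le_mul_of_nonneg_right h6 hs0
      _ = q / 2 := by rw [← hsq]; ring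
  linarith

open Classical in
/-- The density of the reducible members is at most a constant less than one. -/
theorem dens_irr (hF : ringChar F ≠ 2) (g : ℕ) (hrm : r + m = 2 * g + 1) (hrg : r ≤ g)
    (hq : 4 * (2 * g + 1) ^ 2 + 16 * r ≤ Fintype.card F) :
    (((univ : Finset (Idx r m → F)).filter fun u => ¬ Irreducible (fpol u)).card : ℝ) ≤
      (1 - 1 / (2 * (2 * g + 1) * 16 ^ r)) * (Fintype.card F : ℝ) ^ Fintype.card (Idx r m) := by
  obtain ⟨q, hqq⟩ : ∃ q : ℝ, q = Fintype.card F := ⟨_, rfl⟩
  have hq0 : 0 < q := by rw [hqq]; exact_mod_cast Fintype.card_pos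
  have hqr : 16 * (r : ℝ) ≤ q := by
    rw [hqq]
    exact_mod_cast (by omega : 16 * r ≤ Fintype.card F)
  obtain ⟨II, hII⟩ : ∃ II : Finset F[X], II = (Mon F (2 * g + 1)).filter Irreducible := ⟨_, rfl⟩
  have hfib : ∀ P ∈ II, (q / 16) ^ r ≤ (((univ : Finset (Idx r m → F)).filter fun u => fpol u = P).card : ℝ) := by
    intro P hP
    rw [hII, mem_filter, mem_Mon] at hP
    obtain ⟨V, hV⟩ : ∃ V : Finset F, V = (univ : Finset F).filter fun x => ∃ y : F, y ^ 2 = P.eval x := ⟨_, rfl⟩
    have hmemV : ∀ x ∈ V, ∃ y : F, y ^ 2 = P.eval x := by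
      intro x hx
      rw [hV, mem_filter] at hx
      exact hx.2
    have h1 := sq_vals hF P hP.1.1 g hP.1.2 (by omega)
    rw [← hV, ← hqq] at h1
    have h2 : ∀ e : Fin r ↪ V, ∃ u : Idx r m → F, fpol u = P ∧ ∀ i, u (Sum.inl i) = (e i : F) := by
      intro e
      refine exists_u (by omega) P hP.1.1 (by rw [hP.1.2, hrm]) (fun i => (e i : F)) ?_ ?_
      · intro i j hij
        exact e.injective (Subtype.ext hij)
      · intro i
        exact hmemV _ (e i).2
    choose φ hφ1 hφ2 using h2
    have h3 : Fintype.card (Fin r ↪ V) ≤ ((univ : Finset (Idx r m → F)).filter fun u => fpol u = P).card := by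
      rw [← card_univ]
      refine card_le_card_of_injOn φ (fun e _ => ?_) ?_
      · rw [mem_coe, mem_filter]
        exact ⟨mem_univ _, hφ1 e⟩
      · intro e _ e' _ h
        ext i
        rw [← hφ2 e i, ← hφ2 e' i, h]
    rw [Fintype.card_embedding_eq, Fintype.card_fin, Fintype.card_coe] at h3
    have h4 := (Nat.pow_sub_le_descFactorial V.card r).trans h3
    have h5 : (((V.card + 1 - r : ℕ) : ℝ)) ^ r ≤ (((univ : Finset (Idx r m → F)).filter fun u => fpol u = P).card : ℝ) := by
      exact_mod_cast h4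
    refine le_trans (pow_le_pow_left₀ (by positivity) ?_ r) h5
    have h6 : (V.card : ℝ) - r ≤ ((V.card + 1 - r : ℕ) : ℝ) := by
      have : V.card ≤ (V.card + 1 - r) + r := by omega
      have h7 : (V.card : ℝ) ≤ ((V.card + 1 - r : ℕ) : ℝ) + r := by exact_mod_cast this
      linarith
    linarith
  have hcount : ((II.card : ℕ) : ℝ) * (q / 16) ^ r ≤ (((univ : Finset (Idx r m → F)).filter fun u => Irreducible (fpol u)).card : ℝ) := by
    have h1 : ((univ : Finset (Idx r m → F)).filter fun u => Irreducible (fpol u)).card =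
        ∑ P ∈ II, (((univ : Finset (Idx r m → F)).filter fun u => Irreducible (fpol u)).filter fun u => fpol u = P).card := by
      refine card_eq_sum_card_fiberwise fun u hu => ?_
      rw [mem_coe, mem_filter] at hu
      rw [hII, mem_coe, mem_filter, mem_Mon]
      exact ⟨⟨fpol_monic (by omega) u, by rw [fpol_natDegree (by omega : r ≤ m), hrm]⟩, hu.2⟩
    rw [h1]
    push_cast
    have h3 : ∀ P ∈ II, (q / 16) ^ r ≤
        ((((univ : Finset (Idx r m → F)).filter fun u => Irreducible (fpol u)).filter fun u => fpol u = P).card : ℝ) := by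
      intro P hP
      refine (hfib P hP).trans (le_of_eq ?_)
      congr 2
      ext u
      rw [mem_filter, mem_filter, mem_filter]
      constructor
      · rintro ⟨_, h⟩
        refine ⟨⟨mem_univ _, ?_⟩, h⟩
        rw [h]
        rw [hII, mem_filter] at hP
        exact hP.2
      · rintro ⟨_, h⟩
        exact ⟨mem_univ _, h⟩
    have h4 := sum_le_sum h3
    rw [sum_const, nsmul_eq_mul] at h4
    exact h4
  have hirr := irr_card (F := F) (2 * g + 1) (by omega) (by nlinarith [Nat.zero_le g, Nat.zero_le r])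
  rw [← hII, ← hqq] at hirr
  have hN : Fintype.card (Idx r m) = (2 * g + 1) + r := by
    rw [Fintype.card_sum, Fintype.card_sum, Fintype.card_fin, Fintype.card_fin]
    omega
  have hQ : (Fintype.card (Idx r m → F) : ℝ) = q ^ (2 * g + 1) * q ^ r := by
    rw [Fintype.card_fun, hN, ← pow_add, hqq]
    push_cast
    rfl
  have htot : (((univ : Finset (Idx r m → F)).filter fun u => Irreducible (fpol u)).card : ℝ) +
      (((univ : Finset (Idx r m → F)).filter fun u => ¬ Irreducible (fpol u)).card : ℝ) = q ^ (2 * g + 1) * q ^ r := by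
    rw [← hQ, ← card_univ]
    exact_mod_cast card_filter_add_card_filter_not _
  have hlow : 1 / (2 * (2 * g + 1) * 16 ^ r) * (q ^ (2 * g + 1) * q ^ r) ≤
      (((univ : Finset (Idx r m → F)).filter fun u => Irreducible (fpol u)).card : ℝ) := by
    refine le_trans ?_ hcount
    rw [div_pow, div_mul_eq_mul_div, one_mul, div_le_iff₀ (by positivity)]
    push_cast at hirr
    have h1 : (II.card : ℝ) * (q ^ r / 16 ^ r) * (2 * (2 * g + 1) * 16 ^ r) = (2 * (2 * g + 1) * II.card) * q ^ r := by
      field_simp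
    rw [h1]
    exact mul_le_mul_of_nonneg_right hirr (by positivity)
  rw [hN, pow_add, ← hqq]
  linarith

end

end Q282.JK
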