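import Mathlib

/-!
# Reduction of norm identities modulo a prime
-/

set_option autoImplicit false

namespace Q282.JK

open Polynomial Finset

section

variable {F : Type} [Field F]

/-- the leading coefficient of a norm -/
lemma lead {f W V : F[X]} (hf : f.Monic) (hodd : Odd f.natDegree) (h : W ≠ 0 ∨ V ≠ 0) :
    ∃ s : F, s ≠ 0 ∧ (W ^ 2 - f * V ^ 2).leadingCoeff = (-1) ^ (W ^ 2 - f * V ^ 2).natDegree * s ^ 2 := by
  by_cases hV : V = 0
  · have hW : W ≠ 0 := h.resolve_right (fun h => h hV)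
    refine ⟨W.leadingCoeff, leadingCoeff_ne_zero.2 hW, ?_⟩
    rw [hV]
    have e : W ^ 2 - f * 0 ^ 2 = W ^ 2 := by ring
    rw [e, leadingCoeff_pow, natDegree_pow, pow_mul]
    simp
  have hfV0 : f * V ^ 2 ≠ 0 := mul_ne_zero hf.ne_zero (pow_ne_zero 2 hV)
  have hfVd : (f * V ^ 2).natDegree = f.natDegree + 2 * V.natDegree := by
    rw [natDegree_mul hf.ne_zero (pow_ne_zero 2 hV), natDegree_pow]
  have hfVl : (f * V ^ 2).leadingCoeff = V.leadingCoeff ^ 2 := by
    rw [leadingCoeff_mul, hf.leadingCoeff, one_mul, leadingCoeff_pow]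
  have hoddE : (-1 : F) ^ (f.natDegree + 2 * V.natDegree) = -1 := by
    rw [pow_add, hodd.neg_one_pow, pow_mul]
    simp
  by_cases hW : W = 0
  · refine ⟨V.leadingCoeff, leadingCoeff_ne_zero.2 hV, ?_⟩
    rw [hW]
    have e : (0 : F[X]) ^ 2 - f * V ^ 2 = -(f * V ^ 2) := by ring
    rw [e, leadingCoeff_neg, natDegree_neg, hfVd, hfVl, hoddE]
    ring
  have hW20 : W ^ 2 ≠ 0 := pow_ne_zero 2 hW
  have hW2d : (W ^ 2).natDegree = 2 * W.natDegree := natDegree_pow W 2
  rcases Nat.lt_or_ge (f * V ^ 2).natDegree (W ^ 2).natDegree with hlt | hge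
  · refine ⟨W.leadingCoeff, leadingCoeff_ne_zero.2 hW, ?_⟩
    have hdeg : (f * V ^ 2).degree < (W ^ 2).degree := by
      rw [degree_eq_natDegree hfV0, degree_eq_natDegree hW20]
      exact_mod_cast hlt
    rw [leadingCoeff_sub_of_degree_lt hdeg, natDegree_sub_eq_left_of_natDegree_lt hlt, hW2d, leadingCoeff_pow, pow_mul]
    simp
  · have hlt : (W ^ 2).natDegree < (f * V ^ 2).natDegree := by
      refine lt_of_le_of_ne hge ?_
      rw [hW2d, hfVd]
      intro h
      obtain ⟨k, hk⟩ := hodd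
      omega
    refine ⟨V.leadingCoeff, leadingCoeff_ne_zero.2 hV, ?_⟩
    have hdeg : (W ^ 2).degree < (f * V ^ 2).degree := by
      rw [degree_eq_natDegree hfV0, degree_eq_natDegree hW20]
      exact_mod_cast hlt
    rw [leadingCoeff_sub_of_degree_lt' hdeg, natDegree_sub_eq_right_of_natDegree_lt hlt, hfVd, hfVl, hoddE]
    ring

open Classical in
/-- the identity over a field -/
theorem red_field {r : ℕ} {f W V : F[X]} (hf : f.Monic) (hodd : Odd f.natDegree) (h : W ≠ 0 ∨ V ≠ 0) (c : F) (a : Fin r → F)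
    (e : Fin r → ℕ) (hid : W ^ 2 - f * V ^ 2 = C c * ∏ i, (X - C (a i)) ^ e i) (α : F) (hα : f.eval α = 0)
    (hne : ∀ i, a i ≠ α) : IsSquare (∏ i ∈ univ.filter (fun i => Odd (e i)), (a i - α)) := by
  obtain ⟨s, hs, hlead⟩ := lead hf hodd h
  rw [hid] at hlead
  have hmon : (∏ i, (X - C (a i)) ^ e i).Monic := monic_prod_of_monic _ _ fun i _ => (monic_X_sub_C _).pow _
  have hc : c = (C c * ∏ i, (X - C (a i)) ^ e i).leadingCoeff := by
    rw [leadingCoeff_mul, leadingCoeff_C, hmon.leadingCoeff, mul_one]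
  have hdeg : (∏ i, (X - C (a i)) ^ e i).natDegree = ∑ i, e i := by
    rw [natDegree_prod_of_monic _ _ fun i _ => (monic_X_sub_C _).pow _]
    refine sum_congr rfl fun i _ => ?_
    rw [natDegree_pow, natDegree_X_sub_C, mul_one]
  rw [← hc] at hlead
  have hc0 : c ≠ 0 := by
    rw [hlead]
    exact mul_ne_zero (pow_ne_zero _ (by norm_num)) (pow_ne_zero 2 hs)
  rw [natDegree_C_mul hc0, hdeg] at hlead
  have hev := congrArg (fun p => p.eval α) hid
  simp only [eval_sub, eval_mul, eval_pow, eval_C, eval_prod, eval_X, hα, zero_mul, sub_zero] at hev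
  have h1 : c * ∏ i, (α - a i) ^ e i = s ^ 2 * ∏ i, (a i - α) ^ e i := by
    rw [hlead]
    have h2 : ∏ i, (α - a i) ^ e i = (-1) ^ (∑ i, e i) * ∏ i, (a i - α) ^ e i := by
      rw [← prod_pow_eq_pow_sum, ← prod_mul_distrib]
      refine prod_congr rfl fun i _ => ?_
      rw [← mul_pow]
      congr 1
      ring
    rw [h2]
    have h3 : ((-1 : F) ^ (∑ i, e i)) * ((-1 : F) ^ (∑ i, e i)) = 1 := by
      rw [← mul_pow]
      simp
    linear_combination (s ^ 2 * ∏ i, (a i - α) ^ e i) * h3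
  rw [h1] at hev
  have h2 : ∏ i, (a i - α) ^ e i = (∏ i, (a i - α) ^ (e i / 2)) ^ 2 * ∏ i ∈ univ.filter (fun i => Odd (e i)), (a i - α) := by
    rw [← prod_pow, prod_filter, ← prod_mul_distrib]
    refine prod_congr rfl fun i _ => ?_
    split_ifs with ho
    · obtain ⟨k, hk⟩ := ho
      have h4 : e i / 2 = k := by omega
      rw [h4, hk]
      ring
    · obtain ⟨k, hk⟩ := Nat.not_odd_iff_even.1 ho
      have h4 : e i / 2 = k := by omega
      rw [h4, hk]
      ring
  have h3 : ∏ i, (a i - α) ^ (e i / 2) ≠ 0 := prod_ne_zero_iff.2 fun i _ => pow_ne_zero _ (sub_ne_zero.2 (hne i))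
  refine ⟨W.eval α / (s * ∏ i, (a i - α) ^ (e i / 2)), ?_⟩
  rw [h2] at hev
  field_simp
  linear_combination -hev

end

section

variable {O K : Type} [CommRing O] [IsDedekindDomain O] [Field K] [Algebra O K] [IsFractionRing O K]

open nonZeroDivisors in
/-- scaling at a prime -/
lemma scale (P : Ideal O) (hP : P ≠ ⊤) (W V : K[X]) (h : W ≠ 0 ∨ V ≠ 0) : ∃ (l : K) (W₁ V₁ : O[X]), l ≠ 0 ∧
    W₁.map (algebraMap O K) = C l * W ∧ V₁.map (algebraMap O K) = C l * V ∧ ∃ n, W₁.coeff n ∉ P ∨ V₁.coeff n ∉ P := by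
  classical
  obtain ⟨N, hN⟩ : ∃ N : ℕ, N = max W.natDegree V.natDegree + 1 := ⟨_, rfl⟩
  obtain ⟨s, hs⟩ : ∃ s : Finset (ℕ × Bool), s = range N ×ˢ univ := ⟨_, rfl⟩
  obtain ⟨φ, hφ⟩ : ∃ φ : ℕ × Bool → K, φ = fun p => if p.2 then W.coeff p.1 else V.coeff p.1 := ⟨_, rfl⟩
  obtain ⟨I, hI⟩ : ∃ I : FractionalIdeal O⁰ K, I = FractionalIdeal.spanFinset O s φ := ⟨_, rfl⟩
  have hmem : ∀ p ∈ s, φ p ∈ I := by
    intro p hp
    rw [hI]
    show φ p ∈ Submodule.span O (φ '' s)
    exact Submodule.subset_span ⟨p, hp, rfl⟩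
  have hI0 : I ≠ 0 := by
    rw [hI, FractionalIdeal.spanFinset_ne_zero]
    rcases h with h | h
    · refine ⟨(W.natDegree, true), ?_, ?_⟩
      · rw [hs, mem_product, mem_range]
        exact ⟨by rw [hN]; have := le_max_left W.natDegree V.natDegree; omega, mem_univ _⟩
      · rw [hφ]
        exact leadingCoeff_ne_zero.2 h
    · refine ⟨(V.natDegree, false), ?_, ?_⟩
      · rw [hs, mem_product, mem_range]
        exact ⟨by rw [hN]; have := le_max_right W.natDegree V.natDegree; omega, mem_univ _⟩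
      · rw [hφ]
        exact leadingCoeff_ne_zero.2 h
  -- the scaling factor
  obtain ⟨l, hl, p₀, hp₀, hnot⟩ : ∃ l ∈ I⁻¹, ∃ p ∈ s, l * φ p ∉ (P : FractionalIdeal O⁰ K) := by
    by_contra hno
    push Not at hno
    have h1 : I⁻¹ * I ≤ (P : FractionalIdeal O⁰ K) := by
      rw [FractionalIdeal.mul_le]
      intro l hl x hx
      have hx' : x ∈ Submodule.span O (φ '' s) := by
        rw [hI] at hx
        exact hx
      refine Submodule.span_induction ?_ ?_ ?_ ?_ hx'
      · rintro _ ⟨p, hp, rfl⟩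
        exact hno l hl p hp
      · rw [mul_zero]
        exact Submodule.zero_mem ((P : FractionalIdeal O⁰ K) : Submodule O K)
      · intro x y _ _ hx hy
        rw [mul_add]
        exact Submodule.add_mem ((P : FractionalIdeal O⁰ K) : Submodule O K) hx hy
      · intro a x _ hx
        rw [mul_smul_comm]
        exact Submodule.smul_mem ((P : FractionalIdeal O⁰ K) : Submodule O K) a hx
    rw [inv_mul_cancel₀ hI0, ← FractionalIdeal.coeIdeal_top, FractionalIdeal.coeIdeal_le_coeIdeal] at h1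
    exact hP (top_le_iff.1 h1)
  have hint : ∀ p ∈ s, ∃ z : O, algebraMap O K z = l * φ p := by
    intro p hp
    have h1 := (FractionalIdeal.mem_inv_iff hI0).1 hl (φ p) (hmem p hp)
    rw [FractionalIdeal.mem_one_iff] at h1
    exact h1
  have hlift : ∀ (b : Bool) (G : K[X]), (∀ n, G.coeff n = φ (n, b)) → G.natDegree < N →
      ∃ G₁ : O[X], G₁.map (algebraMap O K) = C l * G := by
    intro b G hG hd
    have : C l * G ∈ lifts (algebraMap O K) := by
      rw [lifts_iff_coeff_lifts]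
      intro n
      rw [coeff_C_mul]
      by_cases hn : n < N
      · rw [hG n]
        exact hint (n, b) (by rw [hs, mem_product, mem_range]; exact ⟨hn, mem_univ _⟩)
      · rw [coeff_eq_zero_of_natDegree_lt (by omega), mul_zero]
        exact ⟨0, map_zero _⟩
    obtain ⟨G₁, hG₁⟩ := (mem_lifts _).1 this
    exact ⟨G₁, hG₁⟩
  obtain ⟨W₁, hW₁⟩ := hlift true W (fun n => by rw [hφ]; rfl) (by rw [hN]; have := le_max_left W.natDegree V.natDegree; omega)
  obtain ⟨V₁, hV₁⟩ := hlift false V (fun n => by rw [hφ]; rfl) (by rw [hN]; have := le_max_right W.natDegree V.natDegree; omega)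
  refine ⟨l, W₁, V₁, ?_, hW₁, hV₁, p₀.1, ?_⟩
  · rintro rfl
    rw [zero_mul] at hnot
    exact hnot (Submodule.zero_mem ((P : FractionalIdeal O⁰ K) : Submodule O K))
  · by_contra hno
    push Not at hno
    apply hnot
    rw [FractionalIdeal.mem_coeIdeal]
    rcases hb : p₀.2 with _ | _
    · refine ⟨V₁.coeff p₀.1, hno.2, ?_⟩
      have h1 := congrArg (fun G => G.coeff p₀.1) hV₁
      simp only [coeff_map, coeff_C_mul] at h1
      rw [h1, hφ]
      simp [hb]
    · refine ⟨W₁.coeff p₀.1, hno.1, ?_⟩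
      have h1 := congrArg (fun G => G.coeff p₀.1) hW₁
      simp only [coeff_map, coeff_C_mul] at h1
      rw [h1, hφ]
      simp [hb]

open Classical in
/-- reduction of a norm identity -/
theorem red_id {r : ℕ} (P : Ideal O) (hP : P ≠ ⊤) {F : Type} [Field F] (π : O →+* F) (hker : ∀ x, π x = 0 → x ∈ P)
    (f : O[X]) (hf : f.Monic) (hodd : Odd f.natDegree) (W V : K[X]) (c : K) (hc : c ≠ 0) (a : Fin r → O) (e : Fin r → ℕ)
    (hid : W ^ 2 - f.map (algebraMap O K) * V ^ 2 = C c * ∏ i, (X - C (algebraMap O K (a i))) ^ e i)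
    (α : F) (hα : (f.map π).eval α = 0) (hne : ∀ i, π (a i) ≠ α) :
    IsSquare (∏ i ∈ univ.filter (fun i => Odd (e i)), (π (a i) - α)) := by
  have hinj : Function.Injective (algebraMap O K) := IsFractionRing.injective O K
  have hWV : W ≠ 0 ∨ V ≠ 0 := by
    by_contra hno
    push Not at hno
    rw [hno.1, hno.2] at hid
    have h1 : C c * ∏ i, (X - C (algebraMap O K (a i))) ^ e i = 0 := by
      rw [← hid]
      ring
    rcases mul_eq_zero.1 h1 with h2 | h2
    · exact hc (C_eq_zero.1 h2)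
    · exact (monic_prod_of_monic _ _ fun i _ => (monic_X_sub_C (algebraMap O K (a i))).pow _).ne_zero h2
  obtain ⟨l, W₁, V₁, hl, hW₁, hV₁, n, hn⟩ := scale P hP W V hWV
  obtain ⟨G, hG⟩ : ∃ G : O[X], G = W₁ ^ 2 - f * V₁ ^ 2 := ⟨_, rfl⟩
  have hGm : G.map (algebraMap O K) = C (l ^ 2 * c) * ∏ i, (X - C (algebraMap O K (a i))) ^ e i := by
    rw [hG, Polynomial.map_sub, Polynomial.map_mul, Polynomial.map_pow, Polynomial.map_pow, hW₁, hV₁, C_mul, mul_assoc, ← hid,
      C_pow]
    ring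
  have hmon : (∏ i, (X - C (algebraMap O K (a i))) ^ e i).Monic :=
    monic_prod_of_monic _ _ fun i _ => (monic_X_sub_C _).pow _
  have hlc : algebraMap O K G.leadingCoeff = l ^ 2 * c := by
    have h1 := leadingCoeff_map_of_injective hinj G
    rw [← h1, hGm, leadingCoeff_mul, leadingCoeff_C, hmon.leadingCoeff, mul_one]
  have hG2 : G = C G.leadingCoeff * ∏ i, (X - C (a i)) ^ e i := by
    apply Polynomial.map_injective _ hinj
    rw [hGm, Polynomial.map_mul, map_C, hlc, Polynomial.map_prod]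
    congr 1
    refine prod_congr rfl fun i _ => ?_
    rw [Polynomial.map_pow, Polynomial.map_sub, map_X, map_C]
  have hid' : (W₁.map π) ^ 2 - f.map π * (V₁.map π) ^ 2 = C (π G.leadingCoeff) * ∏ i, (X - C (π (a i))) ^ e i := by
    have h1 := congrArg (fun p => p.map π) hG2
    rw [hG] at h1
    simp only [Polynomial.map_sub, Polynomial.map_mul, Polynomial.map_pow, map_C, Polynomial.map_prod, map_X] at h1
    rw [hG]
    exact h1
  refine red_field (hf.map π) ?_ ?_ (π G.leadingCoeff) (fun i => π (a i)) e hid' α hα hne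
  · rw [hf.natDegree_map]
    exact hodd
  · rcases hn with hn | hn
    · left
      intro h0
      apply hn
      apply hker
      rw [← coeff_map, h0, coeff_zero]
    · right
      intro h0
      apply hn
      apply hker
      rw [← coeff_map, h0, coeff_zero]

end

end Q282.JK
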