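import Pool.Agent.Q282.JK.Val
import Pool.Agent.Q282.JK.Red
import Pool.Agent.Q282.JK.Dens
import Pool.Agent.Q282.JK.Irr
import Pool.Agent.Q282.GK.Sieve
import Pool.Agent.TH943.HJ.Cls

/-!
# The rank of almost all Jacobians with marked points over a number field
-/

set_option autoImplicit false

namespace Q282.JK

open Finset NumberField IsDedekindDomain Polynomial Q282.GK
open Pool.Agent.H921R2.TatePole (below deg nm nm_eq)

/-- the members with good properties -/
def Ok (K : Type) [Field K] [NumberField K] {r m : ℕ} (t : Idx r m → 𝓞 K) : Prop :=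
  Irreducible ((fpol t).map (algebraMap (𝓞 K) K)) ∧ HasClassRank (CoordRing ((fpol t).map (algebraMap (𝓞 K) K))) r

section

variable {K : Type} [Field K] [NumberField K] {r m : ℕ}

/-- the property of a set of marked points at a prime -/
def RS (S : Finset (Fin r)) (v : HeightOneSpectrum (𝓞 K)) (t : Idx r m → 𝓞 K) : Prop :=
  ∀ α : Res v, (fpol (fun i => red v (t i))).eval α = 0 → (∀ i, red v (t (Sum.inl i)) ≠ α) →
    IsSquare (∏ i ∈ S, (red v (t (Sum.inl i)) - α))

/-- the conditions for the rank -/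
theorem ok_of (g : ℕ) (hrm : r + m = 2 * g + 1) (hrg : r ≤ g) (hg : 1 ≤ g) (t : Idx r m → 𝓞 K)
    (hirr : ∃ v : HeightOneSpectrum (𝓞 K), Irreducible (fpol (fun i => red v (t i))))
    (hS : ∀ S : Finset (Fin r), S.Nonempty → ∃ v : HeightOneSpectrum (𝓞 K), ¬ RS S v t) : Ok K t := by
  classical
  have hrm' : r ≤ m := by omega
  obtain ⟨F, hF⟩ : ∃ F : K[X], F = (fpol t).map (algebraMap (𝓞 K) K) := ⟨_, rfl⟩
  have hmon : (fpol t).Monic := fpol_monic hrm' t
  have hFmon : F.Monic := by rw [hF]; exact hmon.map _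
  have hFdeg : F.natDegree = 2 * g + 1 := by
    rw [hF, hmon.natDegree_map, fpol_natDegree hrm', hrm]
  -- irreducibility
  have hFirr : Irreducible F := by
    obtain ⟨v, hv⟩ := hirr
    rw [hF, ← hmon.irreducible_iff_irreducible_map_fraction_map]
    refine Polynomial.Monic.irreducible_of_irreducible_map (red v) _ hmon ?_
    rw [fpol_map]
    exact hv
  have h2 : (2 : K) ≠ 0 := two_ne_zero
  have hodd : Odd F.natDegree := ⟨g, hFdeg⟩
  have hded : IsDedekindDomain (Pool.Agent.TH943.HJ.CR F) :=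
    Pool.Agent.TH943.HJ.dedekind h2 hodd hFirr.squarefree
  obtain ⟨a, ha⟩ : ∃ a : Fin r → K, a = fun i => algebraMap (𝓞 K) K (t (Sum.inl i)) := ⟨_, rfl⟩
  obtain ⟨l, hl⟩ : ∃ l : K[X], l = (lpt t).map (algebraMap (𝓞 K) K) := ⟨_, rfl⟩
  have hFeq : F = (∏ i, (X - C (a i))) * (hpt t).map (algebraMap (𝓞 K) K) + l ^ 2 := by
    rw [hF, hl, ha]
    unfold fpol
    rw [Polynomial.map_add, Polynomial.map_mul, Polynomial.map_pow, mpt_map]
    rfl
  -- the marked points are different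
  have hdist : ∀ i j, i ≠ j → a i ≠ a j := by
    intro i j hij h
    obtain ⟨v, hv⟩ := hS {i, j} (insert_nonempty _ _)
    apply hv
    intro α _ _
    rw [prod_pair hij]
    have h1 : t (Sum.inl i) = t (Sum.inl j) := by
      rw [ha] at h
      exact (IsFractionRing.injective (𝓞 K) K) h
    rw [h1]
    exact ⟨_, rfl⟩
  have hPts : Pool.Agent.TH943.HJ.Pts F (fun i => X - C (a i)) (fun _ => l) := by
    refine ⟨fun i => monic_X_sub_C _, fun i => ?_, fun i => ?_, fun i j hij => ?_⟩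
    · have e : F - l ^ 2 = (∏ i, (X - C (a i))) * (hpt t).map (algebraMap (𝓞 K) K) := by
        rw [hFeq]
        ring
      rw [e]
      exact (dvd_prod_of_mem (fun i => X - C (a i)) (mem_univ i)).mul_right _
    · rw [(irreducible_X_sub_C (a i)).coprime_iff_not_dvd]
      intro hd
      have h1 : X - C (a i) ∣ F := by
        rw [hFeq]
        exact dvd_add ((dvd_prod_of_mem (fun i => X - C (a i)) (mem_univ i)).mul_right _) (dvd_pow hd two_ne_zero)
      have h3 := ((irreducible_X_sub_C (a i)).dvd_irreducible_iff_associated hFirr).1 h1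
      have h4 := natDegree_eq_of_degree_eq (degree_eq_degree_of_associated h3)
      rw [natDegree_X_sub_C, hFdeg] at h4
      omega
    · exact isCoprime_X_sub_C_of_isUnit_sub (sub_ne_zero.2 (hdist i j hij)).isUnit
  have hrank := Pool.Agent.TH943.HJ.rank_ge h2 hodd hFirr hPts (by
    intro W V c e hc hid
    by_contra hno
    push Not at hno
    obtain ⟨i₀, hi₀⟩ := hno
    obtain ⟨v, hv⟩ := hS (univ.filter fun i => Odd (e i)) ⟨i₀, mem_filter.2 ⟨mem_univ _, Nat.not_even_iff_odd.1 hi₀⟩⟩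
    apply hv
    intro α hα hne
    have hP : v.asIdeal ≠ ⊤ := v.isPrime.ne_top
    refine red_id (K := K) v.asIdeal hP (red v) (fun x hx => (red_zero v x).1 hx) (fpol t) hmon
      (by rw [fpol_natDegree hrm', hrm]; exact ⟨g, rfl⟩) W V c hc (fun i => t (Sum.inl i)) e ?_ α ?_ hne
    · rw [← hF, hid, ha]
    · rw [fpol_map]
      exact hα)
  rw [Fintype.card_fin] at hrank
  refine ⟨?_, ?_⟩
  · rw [← hF]
    exact hFirr
  · rw [← hF]
    exact ⟨hded, hrank⟩

end

open Classical in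
/-- almost all members have the rank -/
theorem rank_J (K : Type) [Field K] [NumberField K] (g r m : ℕ) (hrm : r + m = 2 * g + 1) (hrg : r ≤ g) (hg : 1 ≤ g)
    (A : ℝ) (hA : 0 < A) : ∃ C : ℝ, 0 ≤ C ∧
    ∀ (b : Fin (Module.finrank ℚ K) → 𝓞 K), (∀ x : 𝓞 K, ∃ a : Fin (Module.finrank ℚ K) → ℤ, x = ∑ j, (a j : 𝓞 K) * b j) →
    ∀ (N : Idx r m × Fin (Module.finrank ℚ K) → ℤ) (L : Idx r m × Fin (Module.finrank ℚ K) → ℕ) (T : ℝ) (X₀ : ℕ),
    16 ≤ X₀ → (X₀ : ℝ) ≤ T → (∀ k, T ≤ L k) → ∀ E : Finset (Idx r m × Fin (Module.finrank ℚ K) → ℤ), E ⊆ kbox N L →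
    (∀ n ∈ E, ¬ Ok K (comb b n)) → (E.card : ℝ) ≤ C * (∏ k, (L k : ℝ)) * (Real.log (Real.log X₀)) ^ (-A) := by
  obtain ⟨ε, hε⟩ : ∃ ε : ℝ, ε = 1 / (2 * (2 * g + 1) * 16 ^ r) := ⟨_, rfl⟩
  have hε0 : 0 < ε := by rw [hε]; positivity
  have hε6 : ε ≤ 1 / 6 := by
    rw [hε]
    refine one_div_le_one_div_of_le (by norm_num) ?_
    have h1 : (1 : ℝ) ≤ g := by exact_mod_cast hg
    have h2 : (1 : ℝ) ≤ 16 ^ r := one_le_pow₀ (by norm_num)
    nlinarith
  obtain ⟨s, hs⟩ : ∃ s : ℕ, s = 4 * (2 * g + 1) ^ 2 + 16 * r + 3 := ⟨_, rfl⟩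
  obtain ⟨σ, hσ⟩ : ∃ σ : ℝ, σ = 1 / (1 - ε) := ⟨_, rfl⟩
  have hσ1 : 1 < σ := by
    rw [hσ, lt_div_iff₀ (by linarith)]
    linarith
  have hσi : 1 / σ = 1 - ε := by
    rw [hσ, one_div_one_div]
  obtain ⟨C, hC, h⟩ := sieve_K K (Idx r m) s σ hσ1 A hA
  refine ⟨(2 ^ r + 1) * C, by positivity, ?_⟩
  intro b hb N L T X₀ hX₀ hXT hL E hE hEok
  have hX₀' : (16 : ℝ) ≤ X₀ := by exact_mod_cast hX₀
  have hlog1 : 1 < Real.log X₀ := by
    rw [Real.lt_log_iff_exp_lt (by linarith)]
    linarith [Real.exp_one_lt_three]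
  obtain ⟨W, hW⟩ : ∃ W : ℝ, W = C * (∏ k, (L k : ℝ)) * (Real.log (Real.log X₀)) ^ (-A) := ⟨_, rfl⟩
  have hW0 : 0 ≤ W := by
    rw [hW]
    exact mul_nonneg (mul_nonneg hC (prod_nonneg fun k _ => Nat.cast_nonneg _)) (Real.rpow_nonneg (Real.log_pos hlog1).le _)
  -- facts about a large prime
  have hbig : ∀ v : HeightOneSpectrum (𝓞 K), s ≤ (below v : ℕ) → ∀ [Fintype (Res v)], ringChar (Res v) ≠ 2 ∧
      s ≤ Fintype.card (Res v) := by
    intro v hv _
    refine ⟨ring_two v (by omega), ?_⟩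
    rw [res_card]
    refine hv.trans ?_
    rw [Q282.NF.norm_eq]
    exact Nat.le_self_pow (by have := (nm_eq v).2.1; omega) _
  -- the irreducible members
  obtain ⟨E₀, hE₀⟩ : ∃ E₀ : Finset (Idx r m × Fin (Module.finrank ℚ K) → ℤ), E₀ = E.filter fun n =>
    ∀ v : HeightOneSpectrum (𝓞 K), s ≤ (below v : ℕ) → ¬ Irreducible (fpol (fun i => red v (comb b n i))) := ⟨_, rfl⟩
  have hE₀c : (E₀.card : ℝ) ≤ W := by
    rw [hW]
    refine h (fun v t => ¬ Irreducible (fpol (fun i => red v (t i)))) ?_ b hb N L T X₀ hX₀ hXT hL E₀ ?_ ?_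
    · intro v hv
      let _ : Fintype (Res v) := Fintype.ofFinite _
      obtain ⟨h1, h2⟩ := hbig v hv
      refine ⟨Res v, inferInstance, inferInstance, red v, fun u => ¬ Irreducible (fpol u), red_surj v, res_char v,
        fun t => Iff.rfl, ?_⟩
      rw [hσi, hε]
      have := dens_irr h1 g hrm hrg (by omega : 4 * (2 * g + 1) ^ 2 + 16 * r ≤ Fintype.card (Res v))
      convert this
    · rw [hE₀]
      exact (filter_subset _ _).trans hE
    · intro n hn v hv
      rw [hE₀, mem_filter] at hn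
      exact hn.2 v hv
  -- the sets of marked points
  obtain ⟨ES, hES⟩ : ∃ ES : Finset (Fin r) → Finset (Idx r m × Fin (Module.finrank ℚ K) → ℤ), ES = fun S => E.filter fun n =>
    ∀ v : HeightOneSpectrum (𝓞 K), s ≤ (below v : ℕ) → RS S v (comb b n) := ⟨_, rfl⟩
  have hESc : ∀ S : Finset (Fin r), S.Nonempty → ((ES S).card : ℝ) ≤ W := by
    intro S hSn
    rw [hW]
    refine h (fun v t => RS S v t) ?_ b hb N L T X₀ hX₀ hXT hL (ES S) ?_ ?_
    · intro v hv
      let _ : Fintype (Res v) := Fintype.ofFinite _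
      obtain ⟨h1, h2⟩ := hbig v hv
      refine ⟨Res v, inferInstance, inferInstance, red v, fun u => ∀ α : Res v, (fpol u).eval α = 0 → (∀ i, u (Sum.inl i) ≠ α) →
        IsSquare (∏ i ∈ S, (u (Sum.inl i) - α)), red_surj v, res_char v, fun t => Iff.rfl, ?_⟩
      have h3 := dens_S (m := m) h1 (by omega) S hSn (by omega : 10 * r ≤ Fintype.card (Res v))
      have h4 : (1 : ℝ) / (5 / 4) * (Fintype.card (Res v) : ℝ) ^ Fintype.card (Idx r m) ≤
          1 / σ * (Fintype.card (Res v) : ℝ) ^ Fintype.card (Idx r m) := by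
        refine mul_le_mul_of_nonneg_right ?_ (by positivity)
        rw [hσi]
        norm_num
        linarith
      refine le_trans (le_of_eq ?_) (h3.trans h4)
      congr
    · rw [hES]
      exact (filter_subset _ _).trans hE
    · intro n hn v hv
      rw [hES] at hn
      exact (mem_filter.1 hn).2 v hv
  have hcov : E ⊆ E₀ ∪ ((univ : Finset (Finset (Fin r))).filter fun S => S.Nonempty).biUnion ES := by
    intro n hn
    rw [mem_union]
    by_contra hno
    rw [not_or] at hno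
    refine hEok n hn (ok_of g hrm hrg hg (comb b n) ?_ ?_)
    · have h1 := hno.1
      rw [hE₀, mem_filter] at h1
      have h2 : ¬ ∀ v : HeightOneSpectrum (𝓞 K), s ≤ (below v : ℕ) → ¬ Irreducible (fpol (fun i => red v (comb b n i))) :=
        fun h3 => h1 ⟨hn, h3⟩
      push Not at h2
      obtain ⟨v, -, hv⟩ := h2
      exact ⟨v, hv⟩
    · intro S hSn
      by_contra hcon
      push Not at hcon
      apply hno.2
      rw [mem_biUnion]
      refine ⟨S, mem_filter.2 ⟨mem_univ _, hSn⟩, ?_⟩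
      rw [hES]
      exact mem_filter.2 ⟨hn, fun v _ => hcon v⟩
  have h1 := (Nat.cast_le (α := ℝ)).2 ((card_le_card hcov).trans ((card_union_le _ _).trans (add_le_add le_rfl card_biUnion_le)))
  push_cast at h1
  have h2 : ∑ S ∈ (univ : Finset (Finset (Fin r))).filter (fun S => S.Nonempty), ((ES S).card : ℝ) ≤ 2 ^ r * W := by
    refine (sum_le_sum fun S hS => hESc S (mem_filter.1 hS).2).trans ?_
    rw [sum_const, nsmul_eq_mul]
    refine mul_le_mul_of_nonneg_right ?_ hW0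
    have h3 : ((univ : Finset (Finset (Fin r))).filter fun S => S.Nonempty).card ≤ 2 ^ r := by
      refine (card_le_univ _).trans (le_of_eq ?_)
      rw [Fintype.card_finset, Fintype.card_fin]
    exact_mod_cast h3
  have h3 : (2 ^ r + 1) * C * (∏ k, (L k : ℝ)) * (Real.log (Real.log X₀)) ^ (-A) = (2 ^ r + 1) * W := by
    rw [hW]
    ring
  rw [h3]
  linarith

end Q282.JK
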