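import Pool.Agent.Q282.JK.Fam
import Pool.Agent.Q282.GK.Law

/-!
# The Euler factors at `s = 1` of the Jacobians of hyperelliptic curves over a number field: definitions
-/

set_option autoImplicit false

namespace Q282.JK

open Finset NumberField IsDedekindDomain Polynomial

section

variable {K : Type} [Field K] [NumberField K]

/-- The residue field of the prime `v` of `K`. -/
def Res (v : HeightOneSpectrum (𝓞 K)) : Type := 𝓞 K ⧸ v.asIdeal

noncomputable instance resField (v : HeightOneSpectrum (𝓞 K)) : Field (Res v) :=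
  @Ideal.Quotient.field (𝓞 K) _ v.asIdeal (v.isPrime.isMaximal v.ne_bot)

/-- The reduction modulo `v`. -/
noncomputable def red (v : HeightOneSpectrum (𝓞 K)) : 𝓞 K →+* Res v := Ideal.Quotient.mk v.asIdeal

/-- The number of the points of the affine curve `y ^ 2 = f(x)` over the extension of degree `n` of the residue field of `v`
with `q` elements. In the algebraic closure of the residue field this extension consists of the `z` with `z ^ (q ^ n) = z`. -/
noncomputable def points (f : (𝓞 K)[X]) (v : HeightOneSpectrum (𝓞 K)) (n : ℕ) : ℕ :=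
  Nat.card {P : AlgebraicClosure (Res v) × AlgebraicClosure (Res v) //
    P.1 ^ (Ideal.absNorm v.asIdeal ^ n) = P.1 ∧ P.2 ^ (Ideal.absNorm v.asIdeal ^ n) = P.2 ∧
      P.2 ^ 2 = aeval P.1 (f.map (red v))}

/-- The coefficients of the power series `exp (∑ T r X ^ r / r)`: `c 0 = 1` and `n * c n = ∑ c (n - r) * T r`, the sum over
`r = 1, ..., n`. -/
noncomputable def expCoeff (T : ℕ → ℝ) : ℕ → ℝ
  | 0 => 1
  | n + 1 => (∑ r : Fin (n + 1), expCoeff T (n - r) * T (r + 1)) / (n + 1)
termination_by n => n
decreasing_by omega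

/-- `v` does not divide two and `f` has no multiple root modulo `v`. -/
def Good (f : (𝓞 K)[X]) (v : HeightOneSpectrum (𝓞 K)) : Prop := (2 : 𝓞 K) ∉ v.asIdeal ∧ Squarefree (f.map (red v))

/-- The value `P_v(1 / q)` of the polynomial `P_v(T) = ∑ a_n T ^ n = exp (∑ (#C(F_n) - q ^ n - 1) T ^ n / n)` of degree
`2 g = deg f - 1`, where `C` is the curve `y ^ 2 = f(x)` together with one point at infinity, reduced modulo `v`, `q = N v` and
`F_n` is the field with `q ^ n` elements. -/
noncomputable def factor (f : (𝓞 K)[X]) (v : HeightOneSpectrum (𝓞 K)) : ℝ :=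
  ∑ n ∈ range f.natDegree, expCoeff (fun n => (points f v n : ℝ) - (Ideal.absNorm v.asIdeal : ℝ) ^ n) n /
    (Ideal.absNorm v.asIdeal : ℝ) ^ n

/-- The product of the values `P_v(1 / q_v)` over all primes `v` of `K` with the property `Good f v` and `q_v = N v ≤ X`. -/
noncomputable def product (f : (𝓞 K)[X]) (X : ℕ) : ℝ :=
  ∏ᶠ v ∈ {v : HeightOneSpectrum (𝓞 K) | Good f v ∧ Ideal.absNorm v.asIdeal ≤ X}, factor f v

end

/-- The coordinate ring of the affine curve `y ^ 2 = f(x)` over the field `k`. -/
def CoordRing {k : Type} [Field k] (f : k[X]) : Type := AdjoinRoot (X ^ 2 - C f : k[X][X])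

noncomputable instance coordCommRing {k : Type} [Field k] (f : k[X]) : CommRing (CoordRing f) :=
  AdjoinRoot.instCommRing (X ^ 2 - C f : k[X][X])

/-- `A` is a Dedekind domain whose class group has rank at least `r`. -/
def HasClassRank (A : Type) [CommRing A] (r : ℕ) : Prop :=
  ∃ _ : IsDedekindDomain A, (r : Cardinal) ≤ Module.rank ℤ (Additive (ClassGroup A))

end Q282.JK
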