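import Pool.Agent.Q282.JK.Loc

/-!
# The families of hyperelliptic curves with marked points
-/

set_option autoImplicit false
set_option linter.unusedSectionVars false

namespace Q282.JK

open Polynomial Finset
open Pool.Agent.H341R2.Sharp

section

variable {R S : Type} [CommRing R] [CommRing S] {r m : ℕ}

/-- the index set of the parameters -/
abbrev Idx (r m : ℕ) : Type := Fin r ⊕ (Fin m ⊕ Fin r)

/-- the polynomial whose roots are the marked abscissas -/
noncomputable def mpt (u : Idx r m → R) : R[X] := ∏ i, (X - C (u (Sum.inl i)))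

/-- the cofactor -/
noncomputable def hpt (u : Idx r m → R) : R[X] := X ^ m + ∑ j : Fin m, C (u (Sum.inr (Sum.inl j))) * X ^ (j : ℕ)

/-- the polynomial with the marked ordinates as values -/
noncomputable def lpt (u : Idx r m → R) : R[X] := ∑ i : Fin r, C (u (Sum.inr (Sum.inr i))) * X ^ (i : ℕ)

/-- the polynomial of the curve -/
noncomputable def fpol (u : Idx r m → R) : R[X] := mpt u * hpt u + lpt u ^ 2

lemma mpt_monic (u : Idx r m → R) : (mpt u).Monic := monic_prod_of_monic _ _ fun _ _ => monic_X_sub_C _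

lemma mpt_natDegree [Nontrivial R] (u : Idx r m → R) : (mpt u).natDegree = r := by
  unfold mpt
  rw [natDegree_prod_of_monic _ _ fun _ _ => monic_X_sub_C _]
  simp

lemma sum_degree {D : ℕ} (c : Fin D → R) : (∑ i, C (c i) * X ^ (i : ℕ) : R[X]).degree < D := Polynomial.degree_sum_fin_lt c

lemma hpt_monic [Nontrivial R] (u : Idx r m → R) : (hpt u).Monic := Polynomial.monic_X_pow_add (sum_degree _)

lemma hpt_natDegree [Nontrivial R] (u : Idx r m → R) : (hpt u).natDegree = m := by
  apply Polynomial.natDegree_eq_of_degree_eq_some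
  unfold hpt
  rw [Polynomial.degree_add_eq_left_of_degree_lt, Polynomial.degree_X_pow]
  rw [Polynomial.degree_X_pow]
  exact sum_degree _

lemma lpt_degree (u : Idx r m → R) : (lpt u).degree < r := sum_degree _

lemma lpt_sq_degree [Nontrivial R] (hrm : r ≤ m) (u : Idx r m → R) : (lpt u ^ 2).degree < ((r + m : ℕ) : WithBot ℕ) := by
  by_cases h0 : lpt u ^ 2 = 0
  · rw [h0, degree_zero]
    exact WithBot.bot_lt_coe _
  · have hl : lpt u ≠ 0 := by
      intro h
      rw [h] at h0
      exact h0 (by ring)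
    have h1 := lpt_degree u
    rw [degree_eq_natDegree hl] at h1
    have h2 : (lpt u).natDegree < r := by exact_mod_cast h1
    rw [degree_eq_natDegree h0]
    have h3 : (lpt u ^ 2).natDegree ≤ 2 * (lpt u).natDegree := natDegree_pow_le
    exact_mod_cast (by omega : (lpt u ^ 2).natDegree < r + m)

lemma prod_degree [Nontrivial R] (u : Idx r m → R) : (mpt u * hpt u).degree = ((r + m : ℕ) : WithBot ℕ) := by
  rw [degree_eq_natDegree ((mpt_monic u).mul (hpt_monic u)).ne_zero, (mpt_monic u).natDegree_mul (hpt_monic u), mpt_natDegree,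
    hpt_natDegree]

lemma fpol_monic [Nontrivial R] (hrm : r ≤ m) (u : Idx r m → R) : (fpol u).Monic := by
  refine ((mpt_monic u).mul (hpt_monic u)).add_of_left ?_
  rw [prod_degree]
  exact lpt_sq_degree hrm u

lemma fpol_natDegree [Nontrivial R] (hrm : r ≤ m) (u : Idx r m → R) : (fpol u).natDegree = r + m := by
  apply natDegree_eq_of_degree_eq_some
  unfold fpol
  rw [degree_add_eq_left_of_degree_lt, prod_degree]
  rw [prod_degree]
  exact lpt_sq_degree hrm u

lemma mpt_map (φ : R →+* S) (u : Idx r m → R) : (mpt u).map φ = mpt (fun i => φ (u i)) := by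
  unfold mpt
  rw [Polynomial.map_prod]
  exact prod_congr rfl fun i _ => by rw [Polynomial.map_sub, map_X, map_C]

lemma sum_map {D : ℕ} (φ : R →+* S) (c : Fin D → R) :
    (∑ i, C (c i) * X ^ (i : ℕ) : R[X]).map φ = ∑ i, C (φ (c i)) * X ^ (i : ℕ) := by
  rw [Polynomial.map_sum]
  exact sum_congr rfl fun i _ => by rw [Polynomial.map_mul, Polynomial.map_pow, map_X, map_C]

lemma hpt_map (φ : R →+* S) (u : Idx r m → R) : (hpt u).map φ = hpt (fun i => φ (u i)) := by
  unfold hpt
  rw [Polynomial.map_add, Polynomial.map_pow, map_X, sum_map]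

lemma lpt_map (φ : R →+* S) (u : Idx r m → R) : (lpt u).map φ = lpt (fun i => φ (u i)) := sum_map φ _

lemma fpol_map (φ : R →+* S) (u : Idx r m → R) : (fpol u).map φ = fpol (fun i => φ (u i)) := by
  unfold fpol
  rw [Polynomial.map_add, Polynomial.map_mul, Polynomial.map_pow, mpt_map, hpt_map, lpt_map]

end

section

variable {F : Type} [Field F] [Fintype F] [DecidableEq F]

/-- averaging over translations -/
lemma avg {ι Z : Type} [Fintype ι] [DecidableEq ι] [Fintype Z] (v : Z → ι → F) (H : (ι → F) → ℝ) :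
    (Fintype.card Z : ℝ) * ∑ u, H u = ∑ u, ∑ z, H (u + v z) := by
  rw [sum_comm]
  have h : ∀ z, ∑ u, H (u + v z) = ∑ u, H u := fun z => Fintype.sum_equiv (Equiv.addRight (v z)) _ _ fun _ => rfl
  rw [sum_congr rfl fun z _ => h z, sum_const, card_univ, nsmul_eq_mul]

/-- few vectors have a property which determines one coordinate -/
lemma few {ι : Type} [Fintype ι] [DecidableEq ι] (w : ι → F) (P : (ι → F) → Prop) [DecidablePred P]
    (hP : ∀ u, ∀ z z' : F, P (u + z • w) → P (u + z' • w) → z = z') :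
    (((univ : Finset (ι → F)).filter P).card : ℝ) * Fintype.card F ≤ (Fintype.card F : ℝ) ^ Fintype.card ι := by
  have h := avg (fun z : F => z • w) (fun u => if P u then (1 : ℝ) else 0)
  rw [← sum_filter, sum_const, nsmul_eq_mul, mul_one] at h
  rw [mul_comm, h]
  have h1 : ∀ u : ι → F, ∑ z : F, (if P (u + z • w) then (1 : ℝ) else 0) ≤ 1 := by
    intro u
    rw [← sum_filter, sum_const, nsmul_eq_mul, mul_one]
    have : ((univ : Finset F).filter fun z => P (u + z • w)).card ≤ 1 := by
      rw [card_le_one]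
      intro z hz z' hz'
      exact hP u z z' (mem_filter.1 hz).2 (mem_filter.1 hz').2
    exact_mod_cast this
  refine (sum_le_sum fun u _ => h1 u).trans (le_of_eq ?_)
  rw [sum_const, card_univ, Fintype.card_fun, nsmul_eq_mul, mul_one]
  push_cast
  rfl

variable {r m : ℕ}

lemma mpt_eval (u : Idx r m → F) (x : F) : (mpt u).eval x = ∏ i, (x - u (Sum.inl i)) := by
  unfold mpt
  rw [eval_prod]
  exact prod_congr rfl fun i _ => by rw [eval_sub, eval_X, eval_C]

/-- the coordinate `b_j` -/
def eb (F : Type) [Field F] (r : ℕ) {m : ℕ} (j : Fin m) : Idx r m → F := fun k => if k = Sum.inr (Sum.inl j) then 1 else 0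

/-- the coordinate `a_i` -/
def ea (F : Type) [Field F] {r : ℕ} (m : ℕ) (i : Fin r) : Idx r m → F := fun k => if k = Sum.inl i then 1 else 0

/-- the coordinate `c_i` -/
def ec (F : Type) [Field F] {r : ℕ} (m : ℕ) (i : Fin r) : Idx r m → F := fun k => if k = Sum.inr (Sum.inr i) then 1 else 0

lemma mpt_eb (u : Idx r m → F) (z : F) (j : Fin m) : mpt (u + z • eb F r j) = mpt u := by
  unfold mpt
  refine prod_congr rfl fun i _ => ?_
  simp [eb]

lemma lpt_eb (u : Idx r m → F) (z : F) (j : Fin m) : lpt (u + z • eb F r j) = lpt u := by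
  unfold lpt
  refine sum_congr rfl fun i _ => ?_
  simp [eb]

lemma hpt_eb (u : Idx r m → F) (z : F) (j : Fin m) : hpt (u + z • eb F r j) = hpt u + C z * X ^ (j : ℕ) := by
  unfold hpt
  rw [add_assoc]
  congr 1
  have h : ∀ k : Fin m, C ((u + z • eb F r j) (Sum.inr (Sum.inl k))) * X ^ (k : ℕ) =
      C (u (Sum.inr (Sum.inl k))) * X ^ (k : ℕ) + (if k = j then C z * X ^ (k : ℕ) else 0 : F[X]) := by
    intro k
    by_cases hk : k = j
    · subst hk
      simp [eb, add_mul]
    · simp [eb, hk]
  rw [sum_congr rfl fun k _ => h k, sum_add_distrib, sum_ite_eq']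
  simp

lemma fpol_eb (u : Idx r m → F) (z : F) (j : Fin m) :
    fpol (u + z • eb F r j) = fpol u + mpt u * (C z * X ^ (j : ℕ)) := by
  unfold fpol
  rw [mpt_eb, hpt_eb, lpt_eb]
  ring

lemma lpt_ec (u : Idx r m → F) (z : F) (j : Fin r) : lpt (u + z • ec F m j) = lpt u + C z * X ^ (j : ℕ) := by
  unfold lpt
  have h : ∀ k : Fin r, C ((u + z • ec F m j) (Sum.inr (Sum.inr k))) * X ^ (k : ℕ) =
      C (u (Sum.inr (Sum.inr k))) * X ^ (k : ℕ) + (if k = j then C z * X ^ (k : ℕ) else 0 : F[X]) := by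
    intro k
    by_cases hk : k = j
    · subst hk
      simp [ec, add_mul]
    · simp [ec, hk]
  rw [sum_congr rfl fun k _ => h k, sum_add_distrib, sum_ite_eq']
  simp

/-- the parameters with special points -/
def Spec (u : Idx r m → F) : Prop :=
  (∃ i j, i ≠ j ∧ u (Sum.inl i) = u (Sum.inl j)) ∨ ∃ i, (lpt u).eval (u (Sum.inl i)) = 0

open Classical in
lemma spec_card :
    (((univ : Finset (Idx r m → F)).filter Spec).card : ℝ) * Fintype.card F ≤
      (r ^ 2 + r) * (Fintype.card F : ℝ) ^ Fintype.card (Idx r m) := by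
  obtain ⟨Q, hQ⟩ : ∃ Q : ℝ, Q = (Fintype.card F : ℝ) ^ Fintype.card (Idx r m) := ⟨_, rfl⟩
  rw [← hQ]
  have hq0 : (0 : ℝ) < Fintype.card F := by exact_mod_cast Fintype.card_pos
  have hQ0 : 0 < Q := by rw [hQ]; positivity
  have h1 : ∀ i j : Fin r, i ≠ j →
      (((univ : Finset (Idx r m → F)).filter fun u => u (Sum.inl i) = u (Sum.inl j)).card : ℝ) * Fintype.card F ≤ Q := by
    intro i j hij
    rw [hQ]
    refine few (ea F m i) (fun u => u (Sum.inl i) = u (Sum.inl j)) ?_
    intro u z z' hz hz'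
    simp [ea, hij.symm] at hz hz'
    exact add_left_cancel (hz.trans hz'.symm)
  have h2 : ∀ i : Fin r,
      (((univ : Finset (Idx r m → F)).filter fun u => (lpt u).eval (u (Sum.inl i)) = 0).card : ℝ) * Fintype.card F ≤ Q := by
    intro i
    rw [hQ]
    have hr : 0 < r := by
      have := i.2
      omega
    refine few (ec F m ⟨0, hr⟩) (fun u => (lpt u).eval (u (Sum.inl i)) = 0) ?_
    intro u z z' hz hz'
    rw [lpt_ec] at hz hz'
    simp [ec] at hz hz'
    exact add_left_cancel (hz.trans hz'.symm)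
  have hsub : (univ : Finset (Idx r m → F)).filter Spec ⊆
      ((univ : Finset (Fin r × Fin r)).filter fun p => p.1 ≠ p.2).biUnion
        (fun p => (univ : Finset (Idx r m → F)).filter fun u => u (Sum.inl p.1) = u (Sum.inl p.2)) ∪
      (univ : Finset (Fin r)).biUnion (fun i => (univ : Finset (Idx r m → F)).filter fun u => (lpt u).eval (u (Sum.inl i)) = 0) := by
    intro u hu
    rw [mem_filter] at hu
    rw [mem_union, mem_biUnion, mem_biUnion]
    rcases hu.2 with ⟨i, j, hij, h⟩ | ⟨i, h⟩
    · exact Or.inl ⟨(i, j), mem_filter.2 ⟨mem_univ _, hij⟩, mem_filter.2 ⟨mem_univ _, h⟩⟩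
    · exact Or.inr ⟨i, mem_univ _, mem_filter.2 ⟨mem_univ _, h⟩⟩
  have h3 := (card_le_card hsub).trans ((card_union_le _ _).trans (add_le_add card_biUnion_le card_biUnion_le))
  have h4 := (Nat.cast_le (α := ℝ)).2 h3
  push_cast at h4
  have h5 := mul_le_mul_of_nonneg_right h4 hq0.le
  refine h5.trans ?_
  rw [add_mul, sum_mul, sum_mul, add_mul]
  refine add_le_add ?_ ?_
  · refine (sum_le_sum fun p hp => h1 p.1 p.2 (mem_filter.1 hp).2).trans ?_
    rw [sum_const, nsmul_eq_mul]
    refine mul_le_mul_of_nonneg_right ?_ hQ0.le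
    have h6 : ((univ : Finset (Fin r × Fin r)).filter fun p => p.1 ≠ p.2).card ≤ r ^ 2 := by
      refine (card_le_univ _).trans (le_of_eq ?_)
      rw [Fintype.card_prod, Fintype.card_fin, sq]
    exact_mod_cast h6
  · refine (sum_le_sum fun i _ => h2 i).trans ?_
    rw [sum_const, card_univ, Fintype.card_fin, nsmul_eq_mul]

lemma sum_char {E : Type} [Field E] [Fintype E] [DecidableEq E] (hE : ringChar E ≠ 2) (a b : E) (hb : b ≠ 0) :
    ∑ z : E, (quadraticChar E (a + b * z) : ℝ) = 0 := by
  have h1 : ∑ z : E, (quadraticChar E (a + b * z) : ℝ) = ∑ z : E, (quadraticChar E z : ℝ) := by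
    refine Fintype.sum_equiv ((Equiv.mulLeft₀ b hb).trans (Equiv.addLeft a)) _ _ fun z => ?_
    rfl
  rw [h1]
  exact_mod_cast quadraticChar_sum_zero hE

lemma T_one (hF : ringChar F ≠ 2) (f : F[X]) : (T f 1 : ℝ) = ∑ x : F, (quadraticChar F (f.eval x) : ℝ) := by
  have h2 := T_eq_sum (F := F) (E := F) hF f
  rw [Module.finrank_self] at h2
  rw [h2]
  push_cast
  exact sum_congr rfl fun x _ => by rw [coe_aeval_eq_eval]

/-- the first moment -/
theorem mom_one (hF : ringChar F ≠ 2) (hm : 1 ≤ m) :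
    |∑ u : Idx r m → F, (T (fpol u) 1 : ℝ) - r * (Fintype.card F : ℝ) ^ Fintype.card (Idx r m)| * Fintype.card F ≤
      r * (r ^ 2 + r) * (Fintype.card F : ℝ) ^ Fintype.card (Idx r m) := by
  classical
  obtain ⟨q, hq⟩ : ∃ q : ℝ, q = Fintype.card F := ⟨_, rfl⟩
  have hq0 : 0 < q := by rw [hq]; exact_mod_cast Fintype.card_pos
  have hsp := spec_card (F := F) (r := r) (m := m)
  rw [← hq] at hsp ⊢
  obtain ⟨N, hN⟩ : ∃ N : (Idx r m → F) → ℝ, N = fun u =>
    (((univ : Finset F).filter fun x => (mpt u).eval x = 0 ∧ (lpt u).eval x ≠ 0).card : ℝ) := ⟨_, rfl⟩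
  -- the sum
  have h1 : ∑ u : Idx r m → F, (T (fpol u) 1 : ℝ) = ∑ u, N u := by
    have h2 := avg (fun z : F => z • eb F r (⟨0, hm⟩ : Fin m)) (fun u => (T (fpol u) 1 : ℝ))
    rw [← hq] at h2
    have h3 : ∀ u : Idx r m → F, ∑ z : F, (T (fpol (u + z • eb F r (⟨0, hm⟩ : Fin m))) 1 : ℝ) = q * N u := by
      intro u
      have h4 : ∀ z : F, (T (fpol (u + z • eb F r (⟨0, hm⟩ : Fin m))) 1 : ℝ) =
          ∑ x : F, (quadraticChar F ((fpol u).eval x + (mpt u).eval x * z) : ℝ) := by
        intro z
        rw [T_one hF]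
        refine sum_congr rfl fun x _ => ?_
        rw [fpol_eb]
        simp
      rw [sum_congr rfl fun z _ => h4 z, sum_comm]
      have h5 : ∀ x : F, ∑ z : F, (quadraticChar F ((fpol u).eval x + (mpt u).eval x * z) : ℝ) =
          if (mpt u).eval x = 0 ∧ (lpt u).eval x ≠ 0 then q else 0 := by
        intro x
        by_cases hx : (mpt u).eval x = 0
        · have h6 : (fpol u).eval x = (lpt u).eval x ^ 2 := by
            unfold fpol
            rw [eval_add, eval_mul, hx, zero_mul, zero_add, eval_pow]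
          rw [h6, hx]
          by_cases hl : (lpt u).eval x = 0
          · rw [if_neg (fun h => h.2 hl), hl]
            simp
          · rw [if_pos ⟨rfl, hl⟩]
            have h7 : ∀ z : F, (quadraticChar F ((lpt u).eval x ^ 2 + 0 * z) : ℝ) = 1 := by
              intro z
              rw [zero_mul, add_zero, quadraticChar_sq_one' hl]
              norm_num
            rw [sum_congr rfl fun z _ => h7 z, sum_const, card_univ, nsmul_eq_mul, mul_one, hq]
        · rw [if_neg (fun h => hx h.1)]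
          exact sum_char hF _ _ hx
      rw [sum_congr rfl fun x _ => h5 x, ← sum_filter, sum_const, nsmul_eq_mul, hN, mul_comm]
    rw [sum_congr rfl fun u _ => h3 u, ← mul_sum] at h2
    exact mul_left_cancel₀ hq0.ne' h2
  have hroots : ∀ u : Idx r m → F, ∀ x : F, (mpt u).eval x = 0 ↔ ∃ i, x = u (Sum.inl i) := by
    intro u x
    rw [mpt_eval, prod_eq_zero_iff]
    constructor
    · rintro ⟨i, -, hi⟩
      exact ⟨i, sub_eq_zero.1 hi⟩
    · rintro ⟨i, hi⟩
      exact ⟨i, mem_univ _, sub_eq_zero.2 hi⟩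
  have hle : ∀ u : Idx r m → F, 0 ≤ N u ∧ N u ≤ r := by
    intro u
    rw [hN]
    refine ⟨Nat.cast_nonneg _, ?_⟩
    have h2 : ((univ : Finset F).filter fun x => (mpt u).eval x = 0 ∧ (lpt u).eval x ≠ 0) ⊆
        (univ : Finset (Fin r)).image fun i => u (Sum.inl i) := by
      intro x hx
      rw [mem_filter] at hx
      obtain ⟨i, hi⟩ := (hroots u x).1 hx.2.1
      exact mem_image.2 ⟨i, mem_univ _, hi.symm⟩
    have h3 := (card_le_card h2).trans card_image_le
    rw [card_univ, Fintype.card_fin] at h3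
    show (((univ : Finset F).filter fun x => (mpt u).eval x = 0 ∧ (lpt u).eval x ≠ 0).card : ℝ) ≤ r
    exact_mod_cast h3
  have heq : ∀ u : Idx r m → F, ¬ Spec u → N u = r := by
    intro u hu
    rw [hN]
    have h2 : ((univ : Finset F).filter fun x => (mpt u).eval x = 0 ∧ (lpt u).eval x ≠ 0) =
        (univ : Finset (Fin r)).image fun i => u (Sum.inl i) := by
      ext x
      rw [mem_filter, mem_image]
      constructor
      · intro hx
        obtain ⟨i, hi⟩ := (hroots u x).1 hx.2.1
        exact ⟨i, mem_univ _, hi.symm⟩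
      · rintro ⟨i, -, rfl⟩
        exact ⟨mem_univ _, (hroots u _).2 ⟨i, rfl⟩, fun h => hu (Or.inr ⟨i, h⟩)⟩
    show (((univ : Finset F).filter fun x => (mpt u).eval x = 0 ∧ (lpt u).eval x ≠ 0).card : ℝ) = r
    rw [h2, card_image_of_injective, card_univ, Fintype.card_fin]
    intro i j hij
    by_contra hne
    exact hu (Or.inl ⟨i, j, hne, hij⟩)
  have h2 : ∑ u : Idx r m → F, (T (fpol u) 1 : ℝ) - r * q ^ Fintype.card (Idx r m) = ∑ u, (N u - r) := by
    rw [h1, sum_sub_distrib, sum_const, card_univ, Fintype.card_fun, nsmul_eq_mul, hq]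
    push_cast
    ring
  have h3 : |∑ u, (N u - r)| ≤ r * (((univ : Finset (Idx r m → F)).filter Spec).card : ℝ) := by
    refine (abs_sum_le_sum_abs _ _).trans ?_
    have h4 : ∀ u : Idx r m → F, |N u - r| ≤ if Spec u then (r : ℝ) else 0 := by
      intro u
      split_ifs with h
      · rw [abs_le]
        have := hle u
        constructor <;> linarith
      · rw [heq u h, sub_self, abs_zero]
    refine (sum_le_sum fun u _ => h4 u).trans (le_of_eq ?_)
    rw [← sum_filter, sum_const, nsmul_eq_mul, mul_comm]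
  rw [h2]
  calc |∑ u, (N u - r)| * q ≤ r * (((univ : Finset (Idx r m → F)).filter Spec).card : ℝ) * q :=
        mul_le_mul_of_nonneg_right h3 hq0.le
    _ = r * ((((univ : Finset (Idx r m → F)).filter Spec).card : ℝ) * q) := by ring
    _ ≤ r * ((r ^ 2 + r) * q ^ Fintype.card (Idx r m)) := mul_le_mul_of_nonneg_left hsp (Nat.cast_nonneg _)
    _ = _ := by ring

end

end Q282.JK
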