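import Pool.Agent.Q282.HL.Mat

/-!
# The local factor of the Jacobian of a hyperelliptic curve over a finite field
-/

set_option autoImplicit false
set_option linter.unusedSectionVars false

namespace Q282.JK

open Polynomial Finset
open Pool.Agent.H341R2.Sharp

/-- expansion of the logarithm -/
lemma log_expand (a R₀ : ℝ) (ha : 0 ≤ a) (hR₀ : 0 ≤ R₀) (s t1 t2 R : ℝ) (hs : 1 ≤ s) (h1 : |t1| ≤ a / s) (h2 : |t2| ≤ a / s ^ 2)
    (hR : |R| ≤ R₀ / s ^ 3) (hU : 2 * (a + (a ^ 2 + a + R₀)) ≤ s) :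
    |Real.log (1 + (t1 + t1 ^ 2 / 2 + t2 + R))| ≤ 2 * (a + (a ^ 2 + a + R₀)) / s ∧
    |Real.log (1 + (t1 + t1 ^ 2 / 2 + t2 + R)) - (t1 + t2)| ≤
      (2 * (a + (a ^ 2 + a + R₀)) ^ 3 + (R₀ + a * (a ^ 2 + a + R₀) + (a ^ 2 + a + R₀) ^ 2)) / s ^ 3 := by
  obtain ⟨W, hW⟩ : ∃ W : ℝ, W = a ^ 2 + a + R₀ := ⟨_, rfl⟩
  obtain ⟨U, hU'⟩ : ∃ U : ℝ, U = a + W := ⟨_, rfl⟩
  obtain ⟨w, hw⟩ : ∃ w : ℝ, w = t1 ^ 2 / 2 + t2 + R := ⟨_, rfl⟩
  obtain ⟨u, hu⟩ : ∃ u : ℝ, u = t1 + t1 ^ 2 / 2 + t2 + R := ⟨_, rfl⟩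
  have hW0 : 0 ≤ W := by rw [hW]; positivity
  have hU0 : 0 ≤ U := by rw [hU']; positivity
  have hs0 : 0 < s := by linarith
  rw [← hW, ← hU'] at hU ⊢
  rw [← hu]
  have hs3 : R₀ / s ^ 3 ≤ R₀ / s ^ 2 := div_le_div_of_nonneg_left hR₀ (by positivity) (pow_le_pow_right₀ hs (by norm_num))
  have ht1 : t1 ^ 2 ≤ a ^ 2 / s ^ 2 := by
    rw [← div_pow, ← sq_abs t1]
    exact pow_le_pow_left₀ (abs_nonneg _) h1 2
  have hwb : |w| ≤ W / s ^ 2 := by
    rw [hw]
    refine (abs_add_three _ _ _).trans ?_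
    have h3 : |t1 ^ 2 / 2| ≤ a ^ 2 / s ^ 2 := by
      rw [abs_of_nonneg (by positivity)]
      have : 0 ≤ a ^ 2 / s ^ 2 := by positivity
      linarith
    have h4 : W / s ^ 2 = a ^ 2 / s ^ 2 + a / s ^ 2 + R₀ / s ^ 2 := by
      rw [hW]
      ring
    rw [h4]
    linarith
  have hs21 : W / s ^ 2 ≤ W / s := by
    refine div_le_div_of_nonneg_left hW0 hs0 ?_
    nlinarith
  have huw : u = t1 + w := by rw [hu, hw]; ring
  have hub : |u| ≤ U / s := by
    rw [huw]
    refine (abs_add_le _ _).trans ?_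
    have : U / s = a / s + W / s := by rw [hU']; ring
    rw [this]
    linarith
  have hu2 : U / s ≤ 1 / 2 := by
    rw [div_le_div_iff₀ hs0 (by norm_num)]
    linarith
  have hu1 : |u| ≤ 1 / 2 := hub.trans hu2
  have hux : |(-u)| < 1 := by
    rw [abs_neg]
    linarith
  constructor
  · have h3 := Real.abs_log_sub_add_sum_range_le hux 0
    rw [sum_range_zero, zero_add, zero_add, pow_one, sub_neg_eq_add, abs_neg] at h3
    refine h3.trans ?_
    have h4 : |u| / (1 - |u|) ≤ 2 * |u| := by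
      rw [div_le_iff₀ (by linarith)]
      nlinarith [abs_nonneg u]
    refine h4.trans ?_
    have h5 : 2 * U / s = 2 * (U / s) := by ring
    rw [h5]
    linarith
  · have h3 := Real.abs_log_sub_add_sum_range_le hux 2
    rw [sum_range_succ, sum_range_succ, sum_range_zero, sub_neg_eq_add, abs_neg] at h3
    have h4 : |Real.log (1 + u) - u + u ^ 2 / 2| ≤ 2 * (U ^ 3 / s ^ 3) := by
      have e : Real.log (1 + u) - u + u ^ 2 / 2 = 0 + (-u) ^ (0 + 1) / (((0 : ℕ) : ℝ) + 1) + (-u) ^ (1 + 1) / (((1 : ℕ) : ℝ) + 1) +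
          Real.log (1 + u) := by
        push_cast
        ring
      rw [e]
      refine h3.trans ?_
      have h5 : |u| ^ (2 + 1) / (1 - |u|) ≤ 2 * |u| ^ 3 := by
        show |u| ^ 3 / (1 - |u|) ≤ 2 * |u| ^ 3
        rw [div_le_iff₀ (by linarith)]
        have : 0 ≤ |u| ^ 3 := by positivity
        nlinarith
      refine h5.trans ?_
      have h6 : |u| ^ 3 ≤ (U / s) ^ 3 := pow_le_pow_left₀ (abs_nonneg _) hub 3
      rw [div_pow] at h6
      linarith
    have h5 : |u - u ^ 2 / 2 - (t1 + t2)| ≤ (R₀ + a * W + W ^ 2) / s ^ 3 := by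
      have e : u - u ^ 2 / 2 - (t1 + t2) = R - t1 * w - w ^ 2 / 2 := by
        rw [hu, hw]
        ring
      rw [e]
      have h6 : |t1 * w| ≤ a * W / s ^ 3 := by
        rw [abs_mul]
        calc |t1| * |w| ≤ a / s * (W / s ^ 2) := mul_le_mul h1 hwb (abs_nonneg _) (by positivity)
          _ = a * W / s ^ 3 := by field_simp
      have h7 : |w ^ 2 / 2| ≤ W ^ 2 / s ^ 3 := by
        rw [abs_of_nonneg (by positivity), ← sq_abs w]
        have h8 : |w| ^ 2 ≤ (W / s ^ 2) ^ 2 := pow_le_pow_left₀ (abs_nonneg _) hwb 2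
        have h9 : (W / s ^ 2) ^ 2 ≤ W ^ 2 / s ^ 3 := by
          rw [div_pow, ← pow_mul]
          exact div_le_div_of_nonneg_left (by positivity) (by positivity) (pow_le_pow_right₀ hs (by norm_num))
        have : 0 ≤ |w| ^ 2 := by positivity
        linarith
      have h8 : (R₀ + a * W + W ^ 2) / s ^ 3 = R₀ / s ^ 3 + a * W / s ^ 3 + W ^ 2 / s ^ 3 := by ring
      rw [h8]
      have h9 := abs_sub (R - t1 * w) (w ^ 2 / 2)
      have h10 := abs_sub R (t1 * w)
      linarith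
    have e : Real.log (1 + u) - (t1 + t2) = (Real.log (1 + u) - u + u ^ 2 / 2) + (u - u ^ 2 / 2 - (t1 + t2)) := by ring
    rw [e]
    refine (abs_add_le _ _).trans ?_
    have h8 : (2 * U ^ 3 + (R₀ + a * W + W ^ 2)) / s ^ 3 = 2 * (U ^ 3 / s ^ 3) + (R₀ + a * W + W ^ 2) / s ^ 3 := by ring
    rw [h8]
    exact add_le_add h4 h5

section

variable {F : Type} [Field F] [Fintype F] [DecidableEq F]

/-- the numerator of the zeta function at `1 / q` -/
noncomputable def lv (g : ℕ) (f : F[X]) : ℝ := ∑ n ∈ range (2 * g + 1), (A f n : ℝ) / (Fintype.card F : ℝ) ^ n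

lemma odd_ns {g : ℕ} {f : F[X]} (hf : f.Monic) (hd : f.natDegree = 2 * g + 1) (c : F) (h : F[X]) : f ≠ C c * h ^ 2 := by
  intro hc
  have h3 : f ≠ 0 := hf.ne_zero
  have hc0 : c ≠ 0 := by
    rintro rfl
    rw [C_0, zero_mul] at hc
    exact h3 hc
  rw [hc, natDegree_C_mul hc0, natDegree_pow] at hd
  omega

lemma A_zero_of_le (hF : ringChar F ≠ 2) {g : ℕ} {f : F[X]} (hf : f.Monic) (hd : f.natDegree = 2 * g + 1) (n : ℕ)
    (hn : 2 * g + 1 ≤ n) : A f n = 0 := by
  obtain ⟨r, hr, hlam⟩ := exists_r hF hf (by omega) (odd_ns hf hd)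
  exact A_eq_zero f r hf hr hlam n (by omega)

lemma card_ge (hF : ringChar F ≠ 2) : (3 : ℝ) ≤ Fintype.card F := by
  obtain ⟨n, hp, hn⟩ := FiniteField.card F (ringChar F)
  rw [hn]
  have h3 : 3 ≤ ringChar F := by
    have := hp.two_le
    omega
  exact_mod_cast h3.trans (Nat.le_self_pow n.pos.ne' _)

theorem lv_pos (hF : ringChar F ≠ 2) {g : ℕ} {f : F[X]} (hf : f.Monic) (hd : f.natDegree = 2 * g + 1) : 0 < lv g f := by
  have hq3 := card_ge hF
  obtain ⟨q, hq⟩ : ∃ q : ℝ, q = Fintype.card F := ⟨_, rfl⟩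
  rw [← hq] at hq3
  have hcont : Continuous fun x : ℝ => ∑ n ∈ range (2 * g + 1), (A f n : ℝ) * x ^ n := by fun_prop
  obtain ⟨φ, hφ⟩ : ∃ φ : ℝ → ℝ, φ = fun x : ℝ => ∑ n ∈ range (2 * g + 1), (A f n : ℝ) * x ^ n := ⟨_, rfl⟩
  rw [← hφ] at hcont
  have h0 : φ 0 = 1 := by
    rw [hφ]
    show ∑ n ∈ range (2 * g + 1), (A f n : ℝ) * (0 : ℝ) ^ n = 1
    rw [sum_eq_single 0]
    · rw [A_zero]
      simp
    · intro n _ hn
      rw [zero_pow hn, mul_zero]
    · intro h
      exact absurd (mem_range.2 (by omega)) h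
  have h1 : lv g f = φ (1 / q) := by
    rw [hφ]
    unfold lv
    show _ = ∑ n ∈ range (2 * g + 1), (A f n : ℝ) * (1 / q) ^ n
    refine sum_congr rfl fun n _ => ?_
    rw [← hq, one_div, inv_pow, div_eq_mul_inv]
  rw [h1]
  by_contra hle
  push Not at hle
  obtain ⟨z, hz, hz0⟩ := intermediate_value_Icc' (by positivity : (0 : ℝ) ≤ 1 / q) hcont.continuousOn
    (show (0 : ℝ) ∈ Set.Icc (φ (1 / q)) (φ 0) from ⟨hle, by rw [h0]; norm_num⟩)
  -- the complex polynomial
  set a : ℂ[X] := ∑ n ∈ range (2 * g + 1), C (A f n : ℂ) * X ^ n with ha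
  have hcoeff : ∀ n, a.coeff n = (A f n : ℂ) := by
    intro n
    rw [ha, finsetSum_coeff]
    simp_rw [coeff_C_mul_X_pow]
    by_cases hn : n < 2 * g + 1
    · rw [sum_eq_single n]
      · simp
      · intro m _ hm
        rw [if_neg (Ne.symm hm)]
      · intro h
        exact absurd (mem_range.2 hn) h
    · rw [A_zero_of_le hF hf hd n (by omega)]
      rw [sum_eq_zero]
      · simp
      · intro m hm
        rw [mem_range] at hm
        rw [if_neg (by omega)]
  have hs0 : 0 < Real.sqrt q := Real.sqrt_pos.2 (by linarith)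
  have hroot := root_norm a (by rw [hcoeff, A_zero]; simp) (fun m => (T f m : ℂ)) (Real.sqrt q) (5 * f.natDegree) hs0
    (by positivity)
    (by
      intro m hm
      have := (T_bound hF hf (by omega) (odd_ns hf hd) m hm).1
      rw [Complex.norm_intCast, hq]
      exact this)
    (by
      intro n
      rw [hcoeff]
      have := n_mul_A f n
      simp_rw [hcoeff]
      exact_mod_cast this)
    (z : ℂ) (by
      rw [ha, eval_finsetSum]
      simp only [eval_mul, eval_C, eval_pow, eval_X]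
      have h2 : φ z = 0 := hz0
      rw [hφ] at h2
      have h3 : ((∑ n ∈ range (2 * g + 1), (A f n : ℝ) * z ^ n : ℝ) : ℂ) = 0 := by
        have h4 : ∑ n ∈ range (2 * g + 1), (A f n : ℝ) * z ^ n = 0 := h2
        rw [h4, Complex.ofReal_zero]
      push_cast at h3
      exact h3)
  rw [Complex.norm_real, Real.norm_eq_abs, abs_of_nonneg hz.1] at hroot
  have h2 : Real.sqrt q * z ≤ Real.sqrt q * (1 / q) := mul_le_mul_of_nonneg_left hz.2 hs0.le
  have h3 : Real.sqrt q * (1 / q) < 1 := by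
    rw [mul_one_div, div_lt_one (by linarith)]
    have h4 := Real.sq_sqrt (show (0 : ℝ) ≤ q by linarith)
    have h5 : 1 < Real.sqrt q := by
      rw [Real.lt_sqrt (by norm_num)]
      linarith
    nlinarith
  linarith

theorem lv_log (g : ℕ) : ∃ B : ℝ, 0 ≤ B ∧ ∀ (F : Type) [Field F] [Fintype F] [DecidableEq F], ringChar F ≠ 2 →
    ∀ f : F[X], f.Monic → f.natDegree = 2 * g + 1 →
    |Real.log (lv g f)| ≤ B / Real.sqrt (Fintype.card F) ∧
    |Real.log (lv g f) - ((T f 1 : ℝ) / Fintype.card F + (T f 2 : ℝ) / (2 * (Fintype.card F : ℝ) ^ 2))| ≤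
      B / (Real.sqrt (Fintype.card F)) ^ 3 := by
  obtain ⟨a, ha⟩ : ∃ a : ℝ, a = 5 * (2 * g + 1) := ⟨_, rfl⟩
  have ha1 : 1 ≤ a := by
    rw [ha]
    have : (0 : ℝ) ≤ g := Nat.cast_nonneg g
    linarith
  obtain ⟨R₀, hR₀⟩ : ∃ R₀ : ℝ, R₀ = (2 * g + 3 : ℕ) * a ^ (2 * g + 3) := ⟨_, rfl⟩
  have hR₀0 : 0 ≤ R₀ := by rw [hR₀]; positivity
  obtain ⟨U, hU⟩ : ∃ U : ℝ, U = a + (a ^ 2 + a + R₀) := ⟨_, rfl⟩
  have hU1 : 1 ≤ U := by
    rw [hU]
    nlinarith [sq_nonneg a]
  obtain ⟨C₁, hC₁⟩ : ∃ C₁ : ℝ, C₁ = 2 * U ^ 3 + (R₀ + a * (a ^ 2 + a + R₀) + (a ^ 2 + a + R₀) ^ 2) := ⟨_, rfl⟩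
  have hC₁0 : 0 ≤ C₁ := by rw [hC₁]; positivity
  obtain ⟨L, hL⟩ : ∃ L : ℝ, L = Real.log (R₀ + 1) + (2 * g : ℕ) * Real.log ((2 * U) ^ 2) := ⟨_, rfl⟩
  have hL1 : 0 ≤ Real.log (R₀ + 1) := Real.log_nonneg (by linarith)
  have hL2 : 0 ≤ Real.log ((2 * U) ^ 2) := Real.log_nonneg (by nlinarith)
  have hL0 : 0 ≤ L := by rw [hL]; positivity
  refine ⟨2 * U + C₁ + L * (2 * U) + (L + 2 * a) * (2 * U) ^ 3, by positivity, ?_⟩
  intro F _ _ _ hF f hf hd
  obtain ⟨q, hq⟩ : ∃ q : ℝ, q = Fintype.card F := ⟨_, rfl⟩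
  obtain ⟨s, hs⟩ : ∃ s : ℝ, s = Real.sqrt q := ⟨_, rfl⟩
  have hq3 := card_ge hF
  rw [← hq] at hq3 ⊢
  rw [← hs]
  have hs1 : 1 ≤ s := by
    rw [hs, Real.le_sqrt (by norm_num) (by linarith)]
    linarith
  have hs0 : 0 < s := by linarith
  have hsq : s ^ 2 = q := by
    rw [hs]
    exact Real.sq_sqrt (by linarith)
  have hAb : ∀ n, |(A f n : ℝ) / q ^ n| ≤ a ^ n / s ^ n := by
    intro n
    have h1 := Q282.HL.A_bound hF hf hd n
    rw [← hq, ← ha, ← hs] at h1
    rw [abs_div, abs_of_nonneg (by positivity : (0 : ℝ) ≤ q ^ n), div_le_div_iff₀ (by positivity) (by positivity)]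
    calc |(A f n : ℝ)| * s ^ n ≤ a ^ n * s ^ n * s ^ n := mul_le_mul_of_nonneg_right h1 (by positivity)
      _ = a ^ n * q ^ n := by
        rw [← hsq]
        ring
  obtain ⟨t1, ht1⟩ : ∃ t1 : ℝ, t1 = (T f 1 : ℝ) / q := ⟨_, rfl⟩
  obtain ⟨t2, ht2⟩ : ∃ t2 : ℝ, t2 = (T f 2 : ℝ) / (2 * q ^ 2) := ⟨_, rfl⟩
  obtain ⟨R, hR⟩ : ∃ R : ℝ, R = ∑ n ∈ range (2 * g), (A f (n + 3) : ℝ) / q ^ (n + 3) := ⟨_, rfl⟩
  have hTb : ∀ m, 1 ≤ m → |(T f m : ℝ)| ≤ a * s ^ m := by
    intro m hm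
    have h1 := (T_bound hF hf (by omega) (odd_ns hf hd) m hm).1
    rw [← hq, ← hs, hd] at h1
    refine h1.trans (le_of_eq ?_)
    rw [ha]
    push_cast
    ring
  have ht1b : |t1| ≤ a / s := by
    rw [ht1, abs_div, abs_of_nonneg (by linarith : (0 : ℝ) ≤ q), div_le_div_iff₀ (by linarith) hs0]
    calc |(T f 1 : ℝ)| * s ≤ a * s ^ 1 * s := mul_le_mul_of_nonneg_right (hTb 1 le_rfl) hs0.le
      _ = a * q := by
        rw [← hsq]
        ring
  have ht2b : |t2| ≤ a / s ^ 2 := by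
    rw [ht2, abs_div, abs_of_nonneg (by positivity : (0 : ℝ) ≤ 2 * q ^ 2), div_le_div_iff₀ (by positivity) (by positivity)]
    calc |(T f 2 : ℝ)| * s ^ 2 ≤ a * s ^ 2 * s ^ 2 := mul_le_mul_of_nonneg_right (hTb 2 (by norm_num)) (by positivity)
      _ = a * q ^ 2 := by
        rw [← hsq]
        ring
      _ ≤ a * (2 * q ^ 2) := by
        refine mul_le_mul_of_nonneg_left ?_ (by linarith)
        have : 0 ≤ q ^ 2 := by positivity
        linarith
  have hRb : |R| ≤ R₀ / s ^ 3 := by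
    rw [hR]
    refine (abs_sum_le_sum_abs _ _).trans ?_
    have h1 : ∀ n ∈ range (2 * g), |(A f (n + 3) : ℝ) / q ^ (n + 3)| ≤ a ^ (2 * g + 3) / s ^ 3 := by
      intro n hn
      rw [mem_range] at hn
      refine (hAb (n + 3)).trans ?_
      exact div_le_div₀ (by positivity) (pow_le_pow_right₀ ha1 (by omega)) (by positivity) (pow_le_pow_right₀ hs1 (by omega))
    refine (sum_le_sum h1).trans ?_
    rw [sum_const, card_range, nsmul_eq_mul, hR₀, mul_div_assoc]
    refine mul_le_mul_of_nonneg_right ?_ (by positivity)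
    push_cast
    linarith
  have hlv : lv g f = 1 + (t1 + t1 ^ 2 / 2 + t2 + R) := by
    have h1 : lv g f = ∑ n ∈ range (2 * g + 3), (A f n : ℝ) / q ^ n := by
      unfold lv
      rw [← hq]
      refine sum_subset (range_mono (by omega)) ?_
      intro n _ hn
      rw [mem_range, not_lt] at hn
      rw [A_zero_of_le hF hf hd n hn]
      simp
    have e1 : (A f 1 : ℝ) = T f 1 := by
      have := n_mul_A f 1
      rw [Icc_self, sum_singleton, Nat.sub_self, A_zero] at this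
      have h2 : A f 1 = T f 1 := by simpa using this
      exact_mod_cast h2
    have e2 : 2 * (A f 2 : ℝ) = (T f 1 : ℝ) ^ 2 + T f 2 := by
      have h2 := n_mul_A f 2
      rw [show Icc 1 2 = {1, 2} from rfl, sum_pair (by norm_num)] at h2
      norm_num at h2
      rw [A_zero] at h2
      have h3 : (2 : ℝ) * (A f 2 : ℝ) = (A f 1 : ℝ) * T f 1 + 1 * T f 2 := by exact_mod_cast h2
      rw [h3, e1]
      ring
    have h4 : ∀ φ : ℕ → ℝ, ∑ n ∈ range (2 * g + 3), φ n = ∑ n ∈ range (2 * g), φ (n + 3) + φ 2 + φ 1 + φ 0 := by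
      intro φ
      rw [sum_range_succ', sum_range_succ', sum_range_succ']
    rw [h1, h4, A_zero, e1, hR, ht1, ht2]
    have hq0 : q ≠ 0 := by linarith
    have e3 : (A f 2 : ℝ) / q ^ 2 = ((T f 1 : ℝ) / q) ^ 2 / 2 + (T f 2 : ℝ) / (2 * q ^ 2) := by
      have : (A f 2 : ℝ) = ((T f 1 : ℝ) ^ 2 + T f 2) / 2 := by linarith
      rw [this]
      field_simp
    rw [e3]
    push_cast
    ring
  rw [← ht1, ← ht2]
  have hlvp := lv_pos hF hf hd
  have hs3 : 0 < s ^ 3 := by positivity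
  rcases le_or_gt (2 * U) s with hcase | hcase
  · have hmain := log_expand a R₀ (by linarith) hR₀0 s t1 t2 R hs1 ht1b ht2b hRb (by rw [← hU]; exact hcase)
    rw [← hlv, ← hU, ← hC₁] at hmain
    constructor
    · refine hmain.1.trans ?_
      refine div_le_div_of_nonneg_right ?_ hs0.le
      have : 0 ≤ C₁ + L * (2 * U) + (L + 2 * a) * (2 * U) ^ 3 := by positivity
      linarith
    · refine hmain.2.trans ?_
      refine div_le_div_of_nonneg_right ?_ hs3.le
      have : 0 ≤ 2 * U + L * (2 * U) + (L + 2 * a) * (2 * U) ^ 3 := by positivity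
      linarith
  · -- the bound for small `q`
    have hlow : (1 : ℝ) / q ^ (2 * g) ≤ lv g f := by
      have h1 : ∃ z : ℤ, lv g f * q ^ (2 * g) = z := by
        refine ⟨∑ n ∈ range (2 * g + 1), A f n * (Fintype.card F : ℤ) ^ (2 * g - n), ?_⟩
        unfold lv
        rw [sum_mul, hq]
        push_cast
        refine sum_congr rfl fun n hn => ?_
        rw [mem_range] at hn
        have hq0 : (Fintype.card F : ℝ) ≠ 0 := by
          rw [← hq]
          linarith
        rw [div_mul_eq_mul_div, div_eq_iff (pow_ne_zero _ hq0), mul_assoc, ← pow_add, Nat.sub_add_cancel (by omega)]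
      obtain ⟨z, hz⟩ := h1
      have hqg : 0 < q ^ (2 * g) := by positivity
      have h2 : (0 : ℝ) < z := by
        rw [← hz]
        positivity
      have h3 : (1 : ℝ) ≤ z := by exact_mod_cast (by exact_mod_cast h2 : 0 < z)
      rw [div_le_iff₀ hqg, hz]
      exact h3
    have hup : lv g f ≤ R₀ + 1 := by
      have h1 : lv g f ≤ ∑ n ∈ range (2 * g + 1), a ^ (2 * g + 3) := by
        unfold lv
        refine sum_le_sum fun n hn => ?_
        rw [mem_range] at hn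
        refine (le_abs_self _).trans ?_
        rw [← hq]
        refine (hAb n).trans ?_
        rw [div_le_iff₀ (by positivity)]
        calc a ^ n ≤ a ^ (2 * g + 3) * 1 := by
              rw [mul_one]
              exact pow_le_pow_right₀ ha1 (by omega)
          _ ≤ _ := mul_le_mul_of_nonneg_left (one_le_pow₀ hs1) (by positivity)
      rw [sum_const, card_range, nsmul_eq_mul] at h1
      refine h1.trans ?_
      rw [hR₀]
      have : 0 ≤ a ^ (2 * g + 3) := by positivity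
      push_cast
      nlinarith
    have hqU : q ≤ (2 * U) ^ 2 := by
      rw [← hsq]
      exact pow_le_pow_left₀ hs0.le hcase.le 2
    have hlogb : |Real.log (lv g f)| ≤ L := by
      rw [abs_le]
      constructor
      · have h1 := Real.log_le_log (by positivity) hlow
        rw [one_div, Real.log_inv, Real.log_pow] at h1
        have h2 : Real.log q ≤ Real.log ((2 * U) ^ 2) := Real.log_le_log (by linarith) hqU
        have h3 : ((2 * g : ℕ) : ℝ) * Real.log q ≤ (2 * g : ℕ) * Real.log ((2 * U) ^ 2) :=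
          mul_le_mul_of_nonneg_left h2 (Nat.cast_nonneg _)
        rw [hL]
        linarith
      · have h1 := Real.log_le_log hlvp hup
        rw [hL]
        have : 0 ≤ ((2 * g : ℕ) : ℝ) * Real.log ((2 * U) ^ 2) := by positivity
        linarith
    constructor
    · rw [le_div_iff₀ hs0]
      calc |Real.log (lv g f)| * s ≤ L * (2 * U) := mul_le_mul hlogb hcase.le hs0.le hL0
        _ ≤ _ := by
          have : 0 ≤ 2 * U + C₁ + (L + 2 * a) * (2 * U) ^ 3 := by positivity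
          linarith
    · rw [le_div_iff₀ hs3]
      have h1 : |Real.log (lv g f) - (t1 + t2)| ≤ L + 2 * a := by
        refine (abs_sub _ _).trans ?_
        have h2 := abs_add_le t1 t2
        have h3 : a / s ≤ a := div_le_self (by linarith) hs1
        have h4 : a / s ^ 2 ≤ a := div_le_self (by linarith) (one_le_pow₀ hs1)
        linarith
      calc |Real.log (lv g f) - (t1 + t2)| * s ^ 3 ≤ (L + 2 * a) * (2 * U) ^ 3 :=
            mul_le_mul h1 (pow_le_pow_left₀ hs0.le hcase.le 3) hs3.le (by positivity)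
        _ ≤ _ := by
          have : 0 ≤ 2 * U + C₁ + L * (2 * U) := by positivity
          linarith

end

end Q282.JK
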