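import Pool.Agent.Q282.JK.Fam
import Pool.Agent.Q282.HL.Count

/-!
# The second moment, the singular members and the local mean
-/

set_option autoImplicit false
set_option linter.unusedSectionVars false

namespace Q282.JK

open Polynomial Finset
open Pool.Agent.H341R2.Sharp

section

variable {F : Type} [Field F] [Fintype F] [DecidableEq F] {r m : ℕ}

/-- translations by polynomials -/
noncomputable def vv (r m : ℕ) (w : F[X]) : Idx r m → F
  | Sum.inr (Sum.inl j) => w.coeff j
  | _ => 0

lemma fpol_vv (u : Idx r m → F) (w : F[X]) (hw : w.degree < m) : fpol (u + vv r m w) = fpol u + mpt u * w := by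
  have h1 : mpt (u + vv r m w) = mpt u := by
    unfold mpt
    refine prod_congr rfl fun i _ => ?_
    simp [vv]
  have h2 : lpt (u + vv r m w) = lpt u := by
    unfold lpt
    refine sum_congr rfl fun i _ => ?_
    simp [vv]
  have h3 : hpt (u + vv r m w) = hpt u + w := by
    unfold hpt
    have h4 : ∀ k : Fin m, C ((u + vv r m w) (Sum.inr (Sum.inl k))) * X ^ (k : ℕ) =
        C (u (Sum.inr (Sum.inl k))) * X ^ (k : ℕ) + C (w.coeff k) * X ^ (k : ℕ) := by
      intro k
      simp [vv, add_mul]
    rw [sum_congr rfl fun k _ => h4 k, sum_add_distrib, ← add_assoc]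
    congr 1
    rcases Nat.eq_zero_or_pos m with h0 | h0
    · subst h0
      simp at hw
      simp [hw]
    · have h5 : w.natDegree < m := by
        rcases eq_or_ne w 0 with h | h
        · rw [h, natDegree_zero]
          exact h0
        · exact (natDegree_lt_iff_degree_lt h).2 hw
      conv_rhs => rw [w.as_sum_range_C_mul_X_pow' h5]
      rw [Fin.sum_univ_eq_sum_range (fun i => C (w.coeff i) * X ^ i) m]
  unfold fpol
  rw [h1, h2, h3]
  ring

lemma mpt_vv (u : Idx r m → F) (w : F[X]) : mpt (u + vv r m w) = mpt u := by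
  unfold mpt
  refine prod_congr rfl fun i _ => ?_
  simp [vv]

/-- few vectors -/
lemma few' {ι Z : Type} [Fintype ι] [DecidableEq ι] [Fintype Z] [DecidableEq Z] (v : Z → ι → F) (P : (ι → F) → Prop)
    [DecidablePred P] (hP : ∀ u, ∀ z z' : Z, P (u + v z) → P (u + v z') → z = z') :
    (((univ : Finset (ι → F)).filter P).card : ℝ) * Fintype.card Z ≤ (Fintype.card F : ℝ) ^ Fintype.card ι := by
  have h := avg v (fun u => if P u then (1 : ℝ) else 0)
  rw [← sum_filter, sum_const, nsmul_eq_mul, mul_one] at h
  rw [mul_comm, h]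
  have h1 : ∀ u : ι → F, ∑ z : Z, (if P (u + v z) then (1 : ℝ) else 0) ≤ 1 := by
    intro u
    rw [← sum_filter, sum_const, nsmul_eq_mul, mul_one]
    have : ((univ : Finset Z).filter fun z => P (u + v z)).card ≤ 1 := by
      rw [card_le_one]
      intro z hz z' hz'
      exact hP u z z' (mem_filter.1 hz).2 (mem_filter.1 hz').2
    exact_mod_cast this
  refine (sum_le_sum fun u _ => h1 u).trans (le_of_eq ?_)
  rw [sum_const, card_univ, Fintype.card_fun, nsmul_eq_mul, mul_one]
  push_cast
  rfl

open Classical in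
lemma sq_card (k : ℕ) (hk : 1 ≤ k) (hkm : k + 1 ≤ m) (P : F[X]) (hP : P ∈ Mon F k) :
    (((univ : Finset (Idx r m → F)).filter fun u => IsCoprime P (mpt u) ∧ P ^ 2 ∣ fpol u).card : ℝ) *
      (Fintype.card F : ℝ) ^ (k + 1) ≤ (Fintype.card F : ℝ) ^ Fintype.card (Idx r m) := by
  rw [mem_Mon] at hP
  have hdeg : ∀ z : Fin (k + 1) → F, (Q282.HL.low (k + 1) z).degree < m := by
    intro z
    refine (Q282.HL.low_degree (k + 1) z).trans_le ?_
    exact_mod_cast hkm
  have h := few' (fun z : Fin (k + 1) → F => vv r m (Q282.HL.low (k + 1) z))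
    (fun u : Idx r m → F => IsCoprime P (mpt u) ∧ P ^ 2 ∣ fpol u) (by
      intro u z z' hz hz'
      rw [mpt_vv, fpol_vv _ _ (hdeg z)] at hz
      rw [mpt_vv, fpol_vv _ _ (hdeg z')] at hz'
      have h1 : P ^ 2 ∣ mpt u * (Q282.HL.low (k + 1) z - Q282.HL.low (k + 1) z') := by
        have := dvd_sub hz.2 hz'.2
        have e : mpt u * (Q282.HL.low (k + 1) z - Q282.HL.low (k + 1) z') =
            fpol u + mpt u * Q282.HL.low (k + 1) z - (fpol u + mpt u * Q282.HL.low (k + 1) z') := by ring
        rw [e]
        exact this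
      have h2 : P ^ 2 ∣ Q282.HL.low (k + 1) z - Q282.HL.low (k + 1) z' := (hz.1.pow_left).dvd_of_dvd_mul_left h1
      have h3 : Q282.HL.low (k + 1) z - Q282.HL.low (k + 1) z' = 0 := by
        by_contra hne
        have h4 := natDegree_le_of_dvd h2 hne
        rw [hP.1.natDegree_pow, hP.2] at h4
        have h5 : (Q282.HL.low (k + 1) z - Q282.HL.low (k + 1) z').degree < ((k + 1 : ℕ) : WithBot ℕ) :=
          (degree_sub_le _ _).trans_lt (max_lt (Q282.HL.low_degree _ _) (Q282.HL.low_degree _ _))
        rw [degree_eq_natDegree hne] at h5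
        have h6 : (Q282.HL.low (k + 1) z - Q282.HL.low (k + 1) z').natDegree < k + 1 := by exact_mod_cast h5
        omega
      funext i
      have h4 : (Q282.HL.low (k + 1) z).coeff i = (Q282.HL.low (k + 1) z').coeff i := by
        rw [sub_eq_zero.1 h3]
      have h5 : ∀ w : Fin (k + 1) → F, (Q282.HL.low (k + 1) w).coeff i = w i := by
        intro w
        unfold Q282.HL.low
        simp only [finsetSum_coeff, coeff_C_mul_X_pow]
        rw [sum_eq_single i]
        · rw [if_pos rfl]
        · intro j _ hj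
          rw [if_neg]
          exact fun h => hj (Fin.ext h.symm)
        · intro h
          exact absurd (mem_univ i) h
      rw [h5, h5] at h4
      exact h4)
  rw [Fintype.card_fun, Fintype.card_fin] at h
  push_cast at h
  exact h

open Classical in
/-- few members are singular -/
theorem bad_card {g : ℕ} (hrm : r + m = 2 * g + 1) (hrg : r ≤ g) :
    (((univ : Finset (Idx r m → F)).filter fun u => ¬ Squarefree (fpol u)).card : ℝ) * Fintype.card F ≤
      (r ^ 2 + r + g) * (Fintype.card F : ℝ) ^ Fintype.card (Idx r m) := by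
  obtain ⟨q, hq⟩ : ∃ q : ℝ, q = Fintype.card F := ⟨_, rfl⟩
  have hq0 : 0 < q := by rw [hq]; exact_mod_cast Fintype.card_pos
  have hsp := spec_card (F := F) (r := r) (m := m)
  obtain ⟨Q, hQ⟩ : ∃ Q : ℝ, Q = (Fintype.card F : ℝ) ^ Fintype.card (Idx r m) := ⟨_, rfl⟩
  have hQ0 : 0 < Q := by rw [hQ, ← hq]; positivity
  have hsq : ∀ k : ℕ, 1 ≤ k → k ≤ g → ∀ P ∈ Mon F k,
      (((univ : Finset (Idx r m → F)).filter fun u => IsCoprime P (mpt u) ∧ P ^ 2 ∣ fpol u).card : ℝ) * q ^ (k + 1) ≤ Q := by
    intro k hk hkg P hP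
    rw [hQ, hq]
    exact sq_card k hk (by omega) P hP
  rw [← hQ] at hsp ⊢
  rw [← hq] at hsp ⊢
  have hsub : ((univ : Finset (Idx r m → F)).filter fun u => ¬ Squarefree (fpol u)) ⊆
      (univ : Finset (Idx r m → F)).filter Spec ∪ (Icc 1 g).biUnion fun k => (Mon F k).biUnion fun P =>
        (univ : Finset (Idx r m → F)).filter fun u => IsCoprime P (mpt u) ∧ P ^ 2 ∣ fpol u := by
    intro u hu
    rw [mem_filter] at hu
    rw [mem_union]
    by_cases hs : Spec u
    · exact Or.inl (mem_filter.2 ⟨mem_univ _, hs⟩)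
    · right
      have hmon := fpol_monic (R := F) (by omega : r ≤ m) u
      have hf0 : fpol u ≠ 0 := hmon.ne_zero
      obtain ⟨P, hP, hPP⟩ : ∃ P : F[X], Irreducible P ∧ P * P ∣ fpol u := by
        by_contra hno
        push Not at hno
        refine hu.2 ?_
        rw [squarefree_iff_irreducible_sq_not_dvd_of_ne_zero hf0]
        exact hno
      -- the monic polynomial
      obtain ⟨P', hP', hPP'⟩ : ∃ P' : F[X], (P'.Monic ∧ Irreducible P') ∧ P' ^ 2 ∣ fpol u := by
        refine ⟨normalize P, ⟨monic_normalize hP.ne_zero, ?_⟩, ?_⟩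
        · exact (normalize_associated P).symm.irreducible hP
        · rw [sq]
          exact ((normalize_associated P).mul_mul (normalize_associated P)).dvd.trans hPP
      have hdeg : 2 * P'.natDegree ≤ 2 * g + 1 := by
        have h1 := natDegree_le_of_dvd hPP' hf0
        rw [hP'.1.natDegree_pow, fpol_natDegree (by omega : r ≤ m), hrm] at h1
        exact h1
      have hpos : 0 < P'.natDegree := hP'.2.natDegree_pos
      rw [mem_biUnion]
      refine ⟨P'.natDegree, mem_Icc.2 ⟨hpos, by omega⟩, ?_⟩
      rw [mem_biUnion]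
      refine ⟨P', mem_Mon.2 ⟨hP'.1, rfl⟩, mem_filter.2 ⟨mem_univ _, ?_, hPP'⟩⟩
      rw [hP'.2.coprime_iff_not_dvd]
      intro hd
      unfold mpt at hd
      obtain ⟨i, -, hi⟩ := (hP'.2.prime.dvd_finsetProd_iff _).1 hd
      have h1 : P' = X - C (u (Sum.inl i)) :=
        eq_of_monic_of_associated hP'.1 (monic_X_sub_C _)
          ((hP'.2.dvd_irreducible_iff_associated (irreducible_X_sub_C _)).1 hi)
      have h2 : (X - C (u (Sum.inl i))) ∣ lpt u ^ 2 := by
        have h3 : (X - C (u (Sum.inl i))) ∣ fpol u := by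
          rw [← h1]
          exact (dvd_pow_self _ two_ne_zero).trans hPP'
        have h4 : (X - C (u (Sum.inl i))) ∣ mpt u * hpt u := by
          rw [← h1]
          exact (hi.trans (by unfold mpt; exact dvd_prod_of_mem _ (mem_univ i))).mul_right _
        unfold fpol at h3
        exact (dvd_add_right h4).1 h3
      rw [dvd_iff_isRoot, IsRoot.def, eval_pow] at h2
      exact hs (Or.inr ⟨i, pow_eq_zero_iff two_ne_zero |>.1 h2⟩)
  have h3 := (card_le_card hsub).trans ((card_union_le _ _).trans (add_le_add le_rfl card_biUnion_le))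
  have h4 := (Nat.cast_le (α := ℝ)).2 h3
  push_cast at h4
  have h5 := mul_le_mul_of_nonneg_right h4 hq0.le
  refine h5.trans ?_
  rw [add_mul, add_mul _ (g : ℝ), sum_mul]
  refine add_le_add hsp ?_
  have h6 : ∀ k ∈ Icc 1 g, (((Mon F k).biUnion fun P =>
        (univ : Finset (Idx r m → F)).filter fun u => IsCoprime P (mpt u) ∧ P ^ 2 ∣ fpol u).card : ℝ) * q ≤ Q := by
    intro k hk
    rw [mem_Icc] at hk
    have h7 := (Nat.cast_le (α := ℝ)).2 (card_biUnion_le (s := Mon F k) (t := fun P =>
        (univ : Finset (Idx r m → F)).filter fun u => IsCoprime P (mpt u) ∧ P ^ 2 ∣ fpol u))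
    push_cast at h7
    have hqk : 0 < q ^ k := by positivity
    have h8 : (((Mon F k).biUnion fun P =>
        (univ : Finset (Idx r m → F)).filter fun u => IsCoprime P (mpt u) ∧ P ^ 2 ∣ fpol u).card : ℝ) * q * q ^ k ≤ Q * q ^ k := by
      have h9 := mul_le_mul_of_nonneg_right h7 (by positivity : 0 ≤ q ^ (k + 1))
      rw [sum_mul] at h9
      have h10 := h9.trans (sum_le_sum fun P hP => hsq k hk.1 hk.2 P hP)
      rw [sum_const, nsmul_eq_mul, Q282.HL.card_Mon] at h10
      push_cast at h10
      rw [← hq] at h10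
      calc _ = (((Mon F k).biUnion fun P =>
        (univ : Finset (Idx r m → F)).filter fun u => IsCoprime P (mpt u) ∧ P ^ 2 ∣ fpol u).card : ℝ) * q ^ (k + 1) := by ring
        _ ≤ q ^ k * Q := h10
        _ = Q * q ^ k := by ring
    exact le_of_mul_le_mul_right h8 hqk
  refine (sum_le_sum h6).trans (le_of_eq ?_)
  rw [sum_const, Nat.card_Icc, nsmul_eq_mul, Nat.add_sub_cancel]

/-- the second moment -/
theorem mom_two (hF : ringChar F ≠ 2) (hrm : r ≤ m) (hm : 2 ≤ m) :
    |∑ u : Idx r m → F, (T (fpol u) 2 : ℝ) - Fintype.card F * (Fintype.card F : ℝ) ^ Fintype.card (Idx r m)| ≤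
      (r + m : ℕ) * (Fintype.card F : ℝ) ^ Fintype.card (Idx r m) := by
  classical
  obtain ⟨p, hp⟩ := CharP.exists F
  have : Fact (Nat.Prime p) := ⟨CharP.char_is_prime F p⟩
  obtain ⟨E, _, _, _, hfr⟩ : ∃ (E : Type) (_ : Field E) (_ : Fintype E) (_ : Algebra F E), Module.finrank F E = 2 :=
    ⟨FiniteField.Extension F p 2, inferInstance, Fintype.ofFinite _, inferInstance, FiniteField.finrank_extension F p 2⟩
  have hcard : Fintype.card E = Fintype.card F ^ 2 := by
    rw [Module.card_eq_pow_finrank (K := F) (V := E), hfr]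
  have hE : ringChar E ≠ 2 := by
    rwa [← Algebra.ringChar_eq F E]
  have hT : ∀ f : F[X], (T f 2 : ℝ) = ∑ y : E, (quadraticChar E (aeval y f) : ℝ) := by
    intro f
    have h4 := T_eq_sum (E := E) hF f
    rw [hfr] at h4
    rw [h4]
    push_cast
    rfl
  obtain ⟨V, hV⟩ : ∃ V : Finset E, V = univ.filter fun y : E => ∃ x : F, algebraMap F E x = y := ⟨_, rfl⟩
  have hinj : Function.Injective (algebraMap F E) := (algebraMap F E).injective
  -- the sum over the elements of `F`
  have h1 : ∀ f : F[X], f ≠ 0 → ∑ y ∈ V, (quadraticChar E (aeval y f) : ℝ) =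
      Fintype.card F - (((univ : Finset F).filter fun x => f.eval x = 0).card : ℝ) := by
    intro f hf
    have h2 : ∑ y ∈ V, (quadraticChar E (aeval y f) : ℝ) = ∑ x : F, (if f.eval x = 0 then (0 : ℝ) else 1) := by
      symm
      refine sum_bij (fun x _ => algebraMap F E x) ?_ ?_ ?_ ?_
      · intro x _
        rw [hV, mem_filter]
        exact ⟨mem_univ _, x, rfl⟩
      · intro x _ y _ h
        exact hinj h
      · intro y hy
        rw [hV, mem_filter] at hy
        obtain ⟨x, hx⟩ := hy.2
        exact ⟨x, mem_univ _, hx⟩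
      · intro x _
        have h3 : aeval (algebraMap F E x) f = algebraMap F E (f.eval x) := by
          rw [aeval_algebraMap_apply, coe_aeval_eq_eval]
        rw [h3, qc_norm hF, Algebra.norm_algebraMap, hfr]
        split_ifs with h0
        · rw [h0]
          simp
        · rw [quadraticChar_sq_one' h0]
          norm_num
    rw [h2]
    have h3 : ∀ x : F, (if f.eval x = 0 then (0 : ℝ) else 1) = 1 - if f.eval x = 0 then (1 : ℝ) else 0 := by
      intro x
      split_ifs <;> norm_num
    rw [sum_congr rfl fun x _ => h3 x, sum_sub_distrib, sum_const, card_univ, nsmul_eq_mul, mul_one, ← sum_filter, sum_const,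
      nsmul_eq_mul, mul_one]
  -- the sum over the other elements
  have h2 : ∑ u : Idx r m → F, ∑ y ∈ Vᶜ, (quadraticChar E (aeval y (fpol u)) : ℝ) = 0 := by
    have h3 := avg (fun z : F × F => vv r m (C z.1 + C z.2 * X)) (fun u : Idx r m → F => ∑ y ∈ Vᶜ, (quadraticChar E (aeval y (fpol u)) : ℝ))
    have h4 : ∀ u : Idx r m → F, ∑ z : F × F, ∑ y ∈ Vᶜ, (quadraticChar E (aeval y (fpol (u + vv r m (C z.1 + C z.2 * X)))) : ℝ) = 0 := by
      intro u
      rw [sum_comm]
      refine sum_eq_zero fun y hy => ?_
      rw [hV, mem_compl, mem_filter] at hy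
      have hy' : ∀ x : F, algebraMap F E x ≠ y := fun x hx => hy ⟨mem_univ _, x, hx⟩
      have h5 : ∀ z : F × F, aeval y (fpol (u + vv r m (C z.1 + C z.2 * X))) =
          aeval y (fpol u) + aeval y (mpt u) * (algebraMap F E z.1 + algebraMap F E z.2 * y) := by
        intro z
        rw [fpol_vv]
        · simp
        · refine lt_of_le_of_lt (b := (1 : WithBot ℕ)) ?_ (by exact_mod_cast (by omega : 1 < m))
          rw [add_comm]
          exact degree_linear_le
      have hbij : Function.Bijective (fun z : F × F => algebraMap F E z.1 + algebraMap F E z.2 * y) := by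
        rw [Fintype.bijective_iff_injective_and_card]
        constructor
        · rintro ⟨a, b⟩ ⟨a', b'⟩ h
          have h6 : algebraMap F E a + algebraMap F E b * y = algebraMap F E a' + algebraMap F E b' * y := h
          have hb : b = b' := by
            by_contra hne
            refine hy' ((a - a') / (b' - b)) ?_
            have h7 : algebraMap F E (b' - b) ≠ 0 := by
              intro h8
              have h9 : b' - b = 0 := hinj (by rw [h8, map_zero])
              exact hne (sub_eq_zero.1 h9).symm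
            rw [map_div₀, div_eq_iff h7, map_sub, map_sub]
            linear_combination h6
          subst hb
          have ha : a = a' := hinj (add_right_cancel h6)
          rw [ha]
        · rw [Fintype.card_prod, hcard, sq]
      have hne : aeval y (mpt u) ≠ 0 := by
        unfold mpt
        rw [map_prod]
        refine prod_ne_zero_iff.2 fun i _ => ?_
        rw [map_sub, aeval_X, aeval_C]
        intro h
        exact hy' _ (sub_eq_zero.1 h).symm
      rw [sum_congr rfl fun z _ => by rw [h5 z]]
      rw [hbij.sum_comp (fun w : E => (quadraticChar E (aeval y (fpol u) + aeval y (mpt u) * w) : ℝ))]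
      exact sum_char hE _ _ hne
    rw [sum_congr rfl fun u _ => h4 u, sum_const_zero] at h3
    have hZ : (Fintype.card (F × F) : ℝ) ≠ 0 := by
      exact_mod_cast Fintype.card_ne_zero
    exact (mul_eq_zero.1 h3).resolve_left hZ
  have h3 : ∑ u : Idx r m → F, (T (fpol u) 2 : ℝ) - Fintype.card F * (Fintype.card F : ℝ) ^ Fintype.card (Idx r m) =
      - ∑ u : Idx r m → F, (((univ : Finset F).filter fun x => (fpol u).eval x = 0).card : ℝ) := by
    have h4 : ∀ u : Idx r m → F, (T (fpol u) 2 : ℝ) = (Fintype.card F - (((univ : Finset F).filter fun x => (fpol u).eval x = 0).card : ℝ)) +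
        ∑ y ∈ Vᶜ, (quadraticChar E (aeval y (fpol u)) : ℝ) := by
      intro u
      rw [hT, ← h1 _ (fpol_monic hrm u).ne_zero, sum_add_sum_compl]
    rw [sum_congr rfl fun u _ => h4 u, sum_add_distrib, h2, add_zero, sum_sub_distrib, sum_const, card_univ, Fintype.card_fun,
      nsmul_eq_mul]
    push_cast
    ring
  rw [h3, abs_neg, abs_of_nonneg (sum_nonneg fun u _ => Nat.cast_nonneg _)]
  have h4 : ∀ u : Idx r m → F, (((univ : Finset F).filter fun x => (fpol u).eval x = 0).card : ℝ) ≤ (r + m : ℕ) := by
    intro u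
    have h5 : ((univ : Finset F).filter fun x => (fpol u).eval x = 0) ⊆ (fpol u).roots.toFinset := by
      intro x hx
      rw [mem_filter] at hx
      rw [Multiset.mem_toFinset, mem_roots (fpol_monic hrm u).ne_zero]
      exact hx.2
    have h6 := (card_le_card h5).trans ((Multiset.toFinset_card_le _).trans (card_roots' _))
    rw [fpol_natDegree hrm] at h6
    exact_mod_cast h6
  refine (sum_le_sum fun u _ => h4 u).trans (le_of_eq ?_)
  rw [sum_const, card_univ, Fintype.card_fun, nsmul_eq_mul]
  push_cast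
  ring

end

end Q282.JK
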