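import Pool.Agent.Q282.JK.Val

/-!
# The logarithm of the product
-/

set_option autoImplicit false

namespace Q282.JK

open Finset NumberField IsDedekindDomain Polynomial Q282.GK
open Pool.Agent.H341R2.Sharp

variable {K : Type} [Field K] [NumberField K]

lemma factor_pos (f : (𝓞 K)[X]) (hf : f.Monic) (g : ℕ) (hd : f.natDegree = 2 * g + 1) (v : HeightOneSpectrum (𝓞 K))
    (hv : Good f v) : 0 < factor f v := by
  classical
  let _ : Fintype (Res v) := Fintype.ofFinite _
  have h2 : (2 : Res v) ≠ 0 := (two_iff v).1 hv.1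
  rw [factor_eq f hf g hd v h2]
  exact lv_pos (res_ring v h2) (hf.map _) (by rw [hf.natDegree_map, hd])

/-- the product is positive, and its logarithm -/
theorem log_product (f : (𝓞 K)[X]) (hf : f.Monic) (g : ℕ) (hd : f.natDegree = 2 * g + 1) (X : ℕ) :
    0 < product f X ∧ Real.log (product f X) = ∑ v ∈ SX K X, val f v := by
  classical
  have h1 : product f X = ∏ v ∈ (SX K X).filter (Good f), factor f v := by
    unfold product
    refine finprod_mem_eq_prod_of_inter_mulSupport_eq _ ?_
    congr 1
    ext v
    rw [Set.mem_ofPred_eq, mem_coe, mem_filter, mem_SX]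
    exact and_comm
  have hpos : ∀ v ∈ (SX K X).filter (Good f), 0 < factor f v := fun v hv =>
    factor_pos f hf g hd v (mem_filter.1 hv).2
  refine ⟨by rw [h1]; exact prod_pos hpos, ?_⟩
  rw [h1, Real.log_prod (fun v hv => (hpos v hv).ne'), sum_filter]
  refine sum_congr rfl fun v _ => ?_
  unfold val
  rfl

end Q282.JK
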